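import Pool.Agent.W928.MW.Stm

/-! Hausdorff dimension of an upper limit set (general exponents). -/

set_option autoImplicit false

open Finset MeasureTheory Filter

namespace Pool.Agent.W802.MWDIMG

open Pool.Agent.W928.MW
open scoped Topology ENNReal NNReal

/-- a geometric form -/
lemma pow_form (i : ℕ) (a : ℝ) : ((2 : ℝ) ^ i) ^ a = ((2 : ℝ) ^ a) ^ i := by
  rw [← Real.rpow_natCast, ← Real.rpow_natCast, ← Real.rpow_mul (by norm_num),
    ← Real.rpow_mul (by norm_num), mul_comm]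

theorem t : S_DIMG := by
  intro A L D B hL hD0 hALD h
  obtain ⟨i0, h⟩ := h
  choose! S hS1 hS2 using h
  have hDn : ((Real.toNNReal D : ℝ≥0) : ℝ) = D := Real.coe_toNNReal D hD0.le
  have hgoal : ENNReal.ofReal D = ((Real.toNNReal D : ℝ≥0) : ℝ≥0∞) := rfl
  rw [hgoal]
  apply dimH_le_of_hausdorffMeasure_ne_top
  rw [hDn]
  set q0 : ℝ := (2 : ℝ) ^ (-L) with hq0
  have hq0pos : 0 < q0 := Real.rpow_pos_of_pos (by norm_num) _
  have hq0lt : q0 < 1 := Real.rpow_lt_one_of_one_lt_of_neg (by norm_num) (by linarith)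
  set q : ℝ := (2 : ℝ) ^ (A - L * D) with hq
  have hqpos : 0 < q := Real.rpow_pos_of_pos (by norm_num) _
  have hqlt : q < 1 := Real.rpow_lt_one_of_one_lt_of_neg (by norm_num) (by linarith)
  have hrr : ∀ i : ℕ, ((2 : ℝ) ^ i) ^ (-L) = q0 ^ i := fun i => pow_form i _
  -- one level
  have hlev : ∀ i : ℕ, i0 ≤ i → ((S i).card : ℝ) * (q0 ^ i) ^ D ≤ q ^ i := by
    intro i hi
    have h1 := hS1 i hi
    have h2 : (0:ℝ) ≤ (q0 ^ i) ^ D := by positivity
    refine (mul_le_mul_of_nonneg_right h1 h2).trans ?_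
    have hX : (1 : ℝ) ≤ (2 : ℝ) ^ i := one_le_pow₀ (by norm_num)
    have hX0 : (0 : ℝ) < (2 : ℝ) ^ i := by positivity
    rw [← hrr i, ← Real.rpow_mul hX0.le, ← Real.rpow_add hX0, hq, ← pow_form i]
    apply Real.rpow_le_rpow_of_exponent_le hX
    nlinarith
  -- the covering
  have hr : Tendsto (fun n : ℕ => ENNReal.ofReal (q0 ^ n)) atTop (𝓝 0) := by
    have h1 := tendsto_pow_atTop_nhds_zero_of_lt_one hq0pos.le hq0lt
    have h2 := ENNReal.tendsto_ofReal h1
    simpa using h2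
  have hd : ∀ (n : ℕ) (p : Σ i : ℕ, (S (n + i0 + i))),
      Metric.ediam (Set.Icc ((p.2 : ℝ)) ((p.2 : ℝ) + q0 ^ (n + i0 + p.1))) =
        ENNReal.ofReal (q0 ^ (n + i0 + p.1)) := by
    intro n p
    rw [Real.ediam_Icc]
    congr 1
    ring
  have key := Measure.hausdorffMeasure_le_liminf_tsum (X := ℝ) (β := ℕ)
    (ι := fun n => Σ i : ℕ, (S (n + i0 + i))) D {c : ℝ | ∀ i1 : ℕ, ∃ i : ℕ, i1 ≤ i ∧ c ∈ B i}
    (l := atTop) (fun n : ℕ => ENNReal.ofReal (q0 ^ n)) hr
    (fun n p => Set.Icc ((p.2 : ℝ)) ((p.2 : ℝ) + q0 ^ (n + i0 + p.1)))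
    (Eventually.of_forall fun n p => by
      rw [hd n p]
      apply ENNReal.ofReal_le_ofReal
      exact pow_le_pow_of_le_one hq0pos.le hq0lt.le (by omega))
    (Eventually.of_forall fun n c hc => by
      obtain ⟨i, hi1, hi2⟩ := hc (n + i0)
      have h3 := hS2 i (by omega) hi2
      simp only [Set.mem_iUnion] at h3
      obtain ⟨x, hx, hxc⟩ := h3
      obtain ⟨k, rfl⟩ := Nat.exists_eq_add_of_le hi1
      rw [Set.mem_iUnion]
      refine ⟨⟨k, ⟨x, hx⟩⟩, ?_⟩
      rw [hrr] at hxc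
      exact hxc)
  refine ne_top_of_le_ne_top ?_ key
  have hbound : ∀ n : ℕ, (∑' p : Σ i : ℕ, (S (n + i0 + i)),
      Metric.ediam (Set.Icc ((p.2 : ℝ)) ((p.2 : ℝ) + q0 ^ (n + i0 + p.1))) ^ D) ≤
      ENNReal.ofReal (1 / (1 - q)) := by
    intro n
    rw [ENNReal.tsum_sigma']
    calc (∑' i : ℕ, ∑' x : (S (n + i0 + i)),
        Metric.ediam (Set.Icc ((x : ℝ)) ((x : ℝ) + q0 ^ (n + i0 + i))) ^ D)
        ≤ ∑' i : ℕ, ENNReal.ofReal (q ^ i) := by
          apply ENNReal.tsum_le_tsum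
          intro i
          have h1 : ∀ x : (S (n + i0 + i)),
              Metric.ediam (Set.Icc ((x : ℝ)) ((x : ℝ) + q0 ^ (n + i0 + i))) ^ D =
                ENNReal.ofReal ((q0 ^ (n + i0 + i)) ^ D) := by
            intro x
            rw [hd n ⟨i, x⟩, ENNReal.ofReal_rpow_of_pos (by positivity)]
          simp only [h1]
          rw [tsum_fintype]
          simp only [Finset.sum_const, Finset.card_univ, Fintype.card_coe, nsmul_eq_mul]
          rw [← ENNReal.ofReal_natCast, ← ENNReal.ofReal_mul (by positivity)]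
          apply ENNReal.ofReal_le_ofReal
          refine (hlev (n + i0 + i) (by omega)).trans ?_
          exact pow_le_pow_of_le_one hqpos.le hqlt.le (by omega)
      _ = ENNReal.ofReal (∑' i : ℕ, q ^ i) := by
          rw [ENNReal.ofReal_tsum_of_nonneg (fun i => by positivity)
            (summable_geometric_of_lt_one hqpos.le hqlt)]
      _ = ENNReal.ofReal (1 / (1 - q)) := by
          rw [tsum_geometric_of_lt_one hqpos.le hqlt, one_div]
  refine ne_top_of_le_ne_top (ENNReal.ofReal_ne_top (r := 1 / (1 - q))) ?_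
  apply Filter.liminf_le_of_le
  · isBoundedDefault
  · intro b hb
    obtain ⟨n, hn⟩ := hb.exists
    exact hn.trans (hbound n)

end Pool.Agent.W802.MWDIMG
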