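import Mathlib

/-!
# Viscosity solutions of the Dirichlet problem for the normalized `p`-Laplacian

Definitions only, in coordinates.  The ambient space is `EuclideanSpace ℝ (Fin n)`, that is `ℝⁿ`
with its Euclidean norm.
-/

open Set Filter Topology

namespace Pool.Agent.W802.NU

/-- The first derivative `∂ᵢ φ (x)`. -/
noncomputable def pd {n : ℕ} (i : Fin n) (φ : EuclideanSpace ℝ (Fin n) → ℝ)
    (x : EuclideanSpace ℝ (Fin n)) : ℝ :=
  fderiv ℝ φ x (EuclideanSpace.single i 1)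

/-- The gradient `Dφ(x) = (∂ᵢ φ (x))ᵢ`. -/
noncomputable def grad {n : ℕ} (φ : EuclideanSpace ℝ (Fin n) → ℝ)
    (x : EuclideanSpace ℝ (Fin n)) : Fin n → ℝ :=
  fun i => pd i φ x

/-- The Hessian matrix `D²φ(x) = (∂ᵢ ∂ⱼ φ (x))ᵢⱼ`. -/
noncomputable def hess {n : ℕ} (φ : EuclideanSpace ℝ (Fin n) → ℝ)
    (x : EuclideanSpace ℝ (Fin n)) : Fin n → Fin n → ℝ :=
  fun i j => pd i (pd j φ) x

/-- The normalized `p`-Laplacian as a function of the gradient `q ≠ 0` and of the Hessian matrix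
`X`: `F_p (q, X) = tr X + (p - 2) ⟨X q, q⟩ / |q|²`. -/
noncomputable def opF {n : ℕ} (p : ℝ) (q : Fin n → ℝ) (X : Fin n → Fin n → ℝ) : ℝ :=
  (∑ i, X i i) + (p - 2) * ((∑ i, ∑ j, X i j * q i * q j) / ∑ i, q i ^ 2)

/-- The upper semicontinuous envelope of `F_p` at zero gradient and Hessian `X`: the upper limit of
`F_p (q, Y)` as `(q, Y) → (0, X)` with `q ≠ 0`. -/
noncomputable def upperEnv {n : ℕ} (p : ℝ) (X : Fin n → Fin n → ℝ) : EReal :=
  limsup (fun z : (Fin n → ℝ) × (Fin n → Fin n → ℝ) => ((opF p z.1 z.2 : ℝ) : EReal))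
    (𝓝[{z | z.1 ≠ 0}] (0, X))

/-- The lower semicontinuous envelope of `F_p` at zero gradient and Hessian `X`: the lower limit of
`F_p (q, Y)` as `(q, Y) → (0, X)` with `q ≠ 0`. -/
noncomputable def lowerEnv {n : ℕ} (p : ℝ) (X : Fin n → Fin n → ℝ) : EReal :=
  liminf (fun z : (Fin n → ℝ) × (Fin n → Fin n → ℝ) => ((opF p z.1 z.2 : ℝ) : EReal))
    (𝓝[{z | z.1 ≠ 0}] (0, X))

/-- `u` is a viscosity subsolution of `Δ_p^N u = f` in the open set `Ω`: whenever `φ` is `C²` near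
`x₀ ∈ Ω` and `u - φ` has a local maximum at `x₀`, then `F_p (Dφ, D²φ) ≥ f` at `x₀`, where at zero
gradient `F_p` is replaced by its upper semicontinuous envelope. -/
def IsSubsolution {n : ℕ} (p : ℝ) (Ω : Set (EuclideanSpace ℝ (Fin n)))
    (f u : EuclideanSpace ℝ (Fin n) → ℝ) : Prop :=
  ∀ x₀ ∈ Ω, ∀ φ : EuclideanSpace ℝ (Fin n) → ℝ, ContDiffAt ℝ 2 φ x₀ →
    IsLocalMax (fun x => u x - φ x) x₀ →
    (grad φ x₀ ≠ 0 → f x₀ ≤ opF p (grad φ x₀) (hess φ x₀)) ∧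
    (grad φ x₀ = 0 → ((f x₀ : ℝ) : EReal) ≤ upperEnv p (hess φ x₀))

/-- `u` is a viscosity supersolution of `Δ_p^N u = f` in the open set `Ω`: whenever `φ` is `C²` near
`x₀ ∈ Ω` and `u - φ` has a local minimum at `x₀`, then `F_p (Dφ, D²φ) ≤ f` at `x₀`, where at zero
gradient `F_p` is replaced by its lower semicontinuous envelope. -/
def IsSupersolution {n : ℕ} (p : ℝ) (Ω : Set (EuclideanSpace ℝ (Fin n)))
    (f u : EuclideanSpace ℝ (Fin n) → ℝ) : Prop :=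
  ∀ x₀ ∈ Ω, ∀ φ : EuclideanSpace ℝ (Fin n) → ℝ, ContDiffAt ℝ 2 φ x₀ →
    IsLocalMin (fun x => u x - φ x) x₀ →
    (grad φ x₀ ≠ 0 → opF p (grad φ x₀) (hess φ x₀) ≤ f x₀) ∧
    (grad φ x₀ = 0 → lowerEnv p (hess φ x₀) ≤ ((f x₀ : ℝ) : EReal))

/-- `u` is a viscosity solution of the Dirichlet problem `Δ_p^N u = f` in `Ω`, `u = g` on `∂Ω`:
it is continuous on the closure of `Ω`, a viscosity sub- and supersolution in `Ω`, and `u = g` on
the boundary. -/
def IsDirichletSolution {n : ℕ} (p : ℝ) (Ω : Set (EuclideanSpace ℝ (Fin n)))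
    (f g u : EuclideanSpace ℝ (Fin n) → ℝ) : Prop :=
  ContinuousOn u (closure Ω) ∧ IsSubsolution p Ω f u ∧ IsSupersolution p Ω f u ∧
    ∀ x ∈ frontier Ω, u x = g x

/-- Uniqueness for the normalized `p`-Laplacian in dimension `n`: for every bounded domain `Ω`,
every `f ∈ C(closure Ω)` and every `g ∈ C(∂Ω)` the Dirichlet problem has at most one viscosity
solution. -/
def Uniqueness (n : ℕ) (p : ℝ) : Prop :=
  ∀ Ω : Set (EuclideanSpace ℝ (Fin n)), IsOpen Ω → IsConnected Ω → Bornology.IsBounded Ω →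
    ∀ f g : EuclideanSpace ℝ (Fin n) → ℝ, ContinuousOn f (closure Ω) →
      ContinuousOn g (frontier Ω) →
      ∀ u₁ u₂ : EuclideanSpace ℝ (Fin n) → ℝ, IsDirichletSolution p Ω f g u₁ →
        IsDirichletSolution p Ω f g u₂ → EqOn u₁ u₂ (closure Ω)

end Pool.Agent.W802.NU
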