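import Mathlib

open Set Filter Topology Metric

namespace Pool.Agent.W802.NU

lemma periodic_angle {G : ℝ → ℝ} (hG : ∀ t, G (t + 2 * Real.pi) = G t) {a b : ℝ}
    (h : (a : Real.Angle) = (b : Real.Angle)) : G a = G b := by
  obtain ⟨k, hk⟩ := Real.Angle.angle_eq_iff_two_pi_dvd_sub.mp h
  have hp : Function.Periodic G (2 * Real.pi) := hG
  have e : a = b + (k : ℝ) * (2 * Real.pi) := by linarith
  rw [e]
  exact (hp.int_mul k) b

/-- the local branch of the angle along a line -/
noncomputable def thet (z w : ℂ) (t : ℝ) : ℝ := Complex.arg z + (Complex.log (1 + (t : ℂ) * (w / z))).im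

lemma thet_zero (z w : ℂ) : thet z w 0 = Complex.arg z := by simp [thet]

lemma slit_ev (z w : ℂ) : ∀ᶠ t : ℝ in 𝓝 0, (1 + (t : ℂ) * (w / z)) ∈ Complex.slitPlane := by
  have hc : Continuous (fun t : ℝ => 1 + (t : ℂ) * (w / z)) := by fun_prop
  apply hc.tendsto 0
  exact Complex.isOpen_slitPlane.mem_nhds (by simp)

lemma thet_periodic {G : ℝ → ℝ} (hG : ∀ t, G (t + 2 * Real.pi) = G t) {z w : ℂ} (hz : z ≠ 0) :
    ∀ᶠ t : ℝ in 𝓝 0, G (Complex.arg (z + (t : ℂ) * w)) = G (thet z w t) := by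
  filter_upwards [slit_ev z w] with t ht
  apply periodic_angle hG
  have hne : 1 + (t : ℂ) * (w / z) ≠ 0 := Complex.slitPlane_ne_zero ht
  have e : z + (t : ℂ) * w = z * (1 + (t : ℂ) * (w / z)) := by field_simp
  rw [e, Complex.arg_mul_coe_angle hz hne, thet, Complex.log_im]
  simp

lemma thet_deriv {z w : ℂ} (hz : z ≠ 0) :
    ∀ᶠ t : ℝ in 𝓝 0, HasDerivAt (thet z w)
      ((z.re * w.im - z.im * w.re) / Complex.normSq (z + (t : ℂ) * w)) t := by
  filter_upwards [slit_ev z w] with t ht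
  have hne : 1 + (t : ℂ) * (w / z) ≠ 0 := Complex.slitPlane_ne_zero ht
  have h1 : HasDerivAt (fun t : ℝ => 1 + (t : ℂ) * (w / z)) (w / z) t := by
    have := (Complex.ofRealCLM.hasDerivAt (x := t)).mul_const (w / z)
    simpa using this.const_add 1
  have h2 := h1.clog_real ht
  have h3 : HasDerivAt (fun t : ℝ => (Complex.log (1 + (t : ℂ) * (w / z))).im)
      ((w / z) / (1 + (t : ℂ) * (w / z))).im t :=
    Complex.imCLM.hasFDerivAt.comp_hasDerivAt t h2
  have h4 := h3.const_add (Complex.arg z)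
  have e : ((w / z) / (1 + (t : ℂ) * (w / z))).im
      = (z.re * w.im - z.im * w.re) / Complex.normSq (z + (t : ℂ) * w) := by
    have e1 : (w / z) / (1 + (t : ℂ) * (w / z)) = w / (z + (t : ℂ) * w) := by
      rw [div_div]; congr 1; field_simp
    rw [e1, Complex.div_im]
    simp only [Complex.add_re, Complex.mul_re, Complex.ofReal_re, Complex.ofReal_im, zero_mul,
      sub_zero, Complex.add_im, Complex.mul_im, add_zero]
    ring
  rw [e] at h4
  exact h4

/-- the function along a line, first and second derivative -/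
theorem line_polar {G P Q : ℝ → ℝ} (hG : ∀ t, HasDerivAt G (P t) t)
    (hP : ∀ t, HasDerivAt P (Q t) t) (hper : ∀ t, G (t + 2 * Real.pi) = G t)
    {z w : ℂ} (hz : z ≠ 0) :
    ∃ h k : ℝ → ℝ,
      (∀ᶠ t : ℝ in 𝓝 0, h t = Complex.normSq (z + (t : ℂ) * w) ^ 2 *
        G (Complex.arg (z + (t : ℂ) * w))) ∧
      (∀ᶠ t : ℝ in 𝓝 0, HasDerivAt h (k t) t) ∧
      k 0 = Complex.normSq z * (4 * (z.re * w.re + z.im * w.im) * G (Complex.arg z)
        + (z.re * w.im - z.im * w.re) * P (Complex.arg z)) ∧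
      HasDerivAt k ((8 * (z.re * w.re + z.im * w.im) ^ 2
        + 4 * Complex.normSq z * Complex.normSq w) * G (Complex.arg z)
        + 6 * (z.re * w.re + z.im * w.im) * (z.re * w.im - z.im * w.re) * P (Complex.arg z)
        + (z.re * w.im - z.im * w.re) ^ 2 * Q (Complex.arg z)) 0 := by
  set c := z.re * w.im - z.im * w.re with hc
  set b := z.re * w.re + z.im * w.im with hb
  set W := Complex.normSq w with hW
  set ρ : ℝ → ℝ := fun t => Complex.normSq (z + (t : ℂ) * w) with hρ
  have hρe : ∀ t : ℝ, ρ t = Complex.normSq z + 2 * b * t + W * t ^ 2 := by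
    intro t
    simp only [hρ, hb, hW, Complex.normSq_apply, Complex.add_re, Complex.mul_re, Complex.ofReal_re,
      Complex.ofReal_im, zero_mul, sub_zero, Complex.add_im, Complex.mul_im, add_zero]
    ring
  have hρd : ∀ t : ℝ, HasDerivAt ρ (2 * b + 2 * W * t) t := by
    intro t
    have e : ρ = fun t => Complex.normSq z + 2 * b * t + W * t ^ 2 := funext hρe
    rw [e]
    have := (((hasDerivAt_id t).const_mul (2 * b)).const_add (Complex.normSq z)).add
      (((hasDerivAt_id t).pow 2).const_mul W)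
    refine this.congr_deriv ?_
    simp
    ring
  have hρ0 : ρ 0 = Complex.normSq z := by simp [hρ]
  have hρpos : 0 < ρ 0 := by rw [hρ0]; exact Complex.normSq_pos.mpr hz
  have hρev : ∀ᶠ t : ℝ in 𝓝 0, 0 < ρ t :=
    (hρd 0).continuousAt.eventually (lt_mem_nhds hρpos)
  set θ := thet z w with hθ
  have hθ0 : θ 0 = Complex.arg z := thet_zero z w
  have hθd := thet_deriv (w := w) hz
  rw [← hc, ← hθ] at hθd
  refine ⟨fun t => ρ t ^ 2 * G (θ t),
    fun t => 2 * ρ t * (2 * b + 2 * W * t) * G (θ t) + c * (ρ t * P (θ t)), ?_, ?_, ?_, ?_⟩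
  · filter_upwards [thet_periodic (w := w) hper hz] with t ht
    rw [ht]
  · filter_upwards [hθd, hρev] with t ht hpos
    have h1 := ((hρd t).pow 2).mul ((hG (θ t)).comp t ht)
    refine h1.congr_deriv ?_
    simp only [Pi.pow_apply, Function.comp_apply]
    have : ρ t ≠ 0 := hpos.ne'
    change _ + ρ t ^ 2 * (P (θ t) * (c / ρ t)) = _
    field_simp
    ring
  · simp only [hθ0, hρ0]
    ring
  · have hθ0d := hθd.self_of_nhds
    have h1 := (hG (θ 0)).comp 0 hθ0d
    have h2 := (hP (θ 0)).comp 0 hθ0d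
    have h3 : HasDerivAt (fun t : ℝ => 2 * b + 2 * W * t) (2 * W) 0 := by
      simpa using ((hasDerivAt_id (0 : ℝ)).const_mul (2 * W)).const_add (2 * b)
    have h4 := ((((hρd 0).const_mul 2).mul h3).mul h1).add (((hρd 0).mul h2).const_mul c)
    refine h4.congr_deriv ?_
    have hne : ρ 0 ≠ 0 := hρpos.ne'
    have hne' : Complex.normSq z ≠ 0 := by rw [← hρ0]; exact hne
    have e0 : Complex.normSq (z + ((0 : ℝ) : ℂ) * w) = Complex.normSq z := by simp
    simp only [Function.comp_apply, Pi.mul_apply, hθ0, hρ0, e0]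
    field_simp
    ring

end Pool.Agent.W802.NU
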