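import Mathlib

open Set Filter Topology Metric

namespace Pool.Agent.W802.NU

/-- second order necessary condition at a local minimum, one variable -/
lemma one_dim_min {e e1 : ℝ → ℝ} {c : ℝ} (hmin : IsLocalMin e 0)
    (hd : ∀ᶠ t in 𝓝 (0 : ℝ), HasDerivAt e (e1 t) t) (hd1 : HasDerivAt e1 c 0) :
    e1 0 = 0 ∧ 0 ≤ c := by
  have h0 : e1 0 = 0 := hmin.hasDerivAt_eq_zero hd.self_of_nhds
  refine ⟨h0, ?_⟩
  by_contra hc
  rw [not_le] at hc
  -- for small `t > 0`, `e1 t < 0`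
  have hslope := hd1.tendsto_slope
  have hev : ∀ᶠ t in 𝓝[≠] (0 : ℝ), slope e1 0 t < 0 := hslope.eventually (gt_mem_nhds hc)
  rw [eventually_nhdsWithin_iff] at hev
  obtain ⟨δ, hδ, hball⟩ := Metric.eventually_nhds_iff_ball.mp (hev.and (hd.and hmin))
  have hmem : ∀ t, 0 < t → t ≤ δ / 2 → t ∈ ball (0 : ℝ) δ := by
    intro t h1 h2
    rw [Metric.mem_ball, Real.dist_eq, sub_zero, abs_of_pos h1]; linarith
  have hmem0 : ∀ t, 0 ≤ t → t ≤ δ / 2 → t ∈ ball (0 : ℝ) δ := by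
    intro t h1 h2
    rw [Metric.mem_ball, Real.dist_eq, sub_zero, abs_of_nonneg h1]; linarith
  have hneg : ∀ t, 0 < t → t ≤ δ / 2 → e1 t < 0 := by
    intro t h1 h2
    have := (hball t (hmem t h1 h2)).1 (by simpa using h1.ne')
    rw [slope_def_field, h0, sub_zero, sub_zero, div_neg_iff] at this
    rcases this with h | h
    · linarith [h.2]
    · exact h.1
  obtain ⟨x, hx, hxe⟩ := exists_hasDerivAt_eq_slope e e1 (by linarith : (0 : ℝ) < δ / 2)
    (fun t ht => (hball t (hmem0 t ht.1 ht.2)).2.1.continuousAt.continuousWithinAt)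
    (fun t ht => (hball t (hmem t ht.1 ht.2.le)).2.1)
  have h1 := hneg x hx.1 hx.2.le
  have h2 := (hball (δ / 2) (hmem _ (by linarith) le_rfl)).2.2
  rw [hxe, sub_zero, div_neg_iff] at h1
  rcases h1 with h | h
  · linarith [h.2]
  · linarith [h.1]

variable {E : Type*} [NormedAddCommGroup E] [NormedSpace ℝ E]

lemma line_deriv {x₀ v : E} {φ : E → ℝ} (hφ : ContDiffAt ℝ 2 φ x₀) :
    (∀ᶠ t in 𝓝 (0 : ℝ), HasDerivAt (fun t : ℝ => φ (x₀ + t • v)) (fderiv ℝ φ (x₀ + t • v) v) t) ∧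
    HasDerivAt (fun t : ℝ => fderiv ℝ φ (x₀ + t • v) v) (fderiv ℝ (fderiv ℝ φ) x₀ v v) 0 := by
  have hline : ∀ t : ℝ, HasDerivAt (fun t : ℝ => x₀ + t • v) v t := fun t => by
    simpa using ((hasDerivAt_id t).smul_const v).const_add x₀
  have hcont : Tendsto (fun t : ℝ => x₀ + t • v) (𝓝 0) (𝓝 x₀) := by
    have := (hline 0).continuousAt.tendsto
    simpa using this
  constructor
  · have h1 : ∀ᶠ x in 𝓝 x₀, DifferentiableAt ℝ φ x :=
      (hφ.eventually (by simp)).mono fun x hx => hx.differentiableAt (by norm_num)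
    filter_upwards [hcont.eventually h1] with t ht
    exact ht.hasFDerivAt.comp_hasDerivAt t (hline t)
  · have h2 : DifferentiableAt ℝ (fderiv ℝ φ) x₀ :=
      (hφ.fderiv_right (m := 1) (by norm_num)).differentiableAt (by norm_num)
    have h2' : HasFDerivAt (fderiv ℝ φ) (fderiv ℝ (fderiv ℝ φ) x₀) (x₀ + (0 : ℝ) • v) := by
      simpa using h2.hasFDerivAt
    have h3 := h2'.comp_hasDerivAt (0 : ℝ) (hline 0)
    have h4 := h3.clm_apply (hasDerivAt_const (0 : ℝ) v)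
    simpa using h4

/-- touching from above -/
lemma touch_above {x₀ v : E} {φ u : E → ℝ} (hφ : ContDiffAt ℝ 2 φ x₀)
    (hmax : IsLocalMax (fun x => u x - φ x) x₀) {h k : ℝ → ℝ} {c : ℝ} (h0 : h 0 = u x₀)
    (hle : ∀ᶠ t in 𝓝 (0 : ℝ), h t ≤ u (x₀ + t • v))
    (hd : ∀ᶠ t in 𝓝 (0 : ℝ), HasDerivAt h (k t) t) (hk : HasDerivAt k c 0) :
    fderiv ℝ φ x₀ v = k 0 ∧ c ≤ fderiv ℝ (fderiv ℝ φ) x₀ v v := by
  obtain ⟨hl1, hl2⟩ := line_deriv (v := v) hφ
  have hcont : Tendsto (fun t : ℝ => x₀ + t • v) (𝓝 0) (𝓝 x₀) := by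
    have : Continuous (fun t : ℝ => x₀ + t • v) := by fun_prop
    simpa using this.tendsto 0
  have hmin : IsLocalMin (fun t : ℝ => φ (x₀ + t • v) - h t) 0 := by
    filter_upwards [hcont.eventually hmax, hle] with t h1 h2
    simp only [zero_smul, add_zero, h0]
    linarith
  have := one_dim_min hmin (e1 := fun t => fderiv ℝ φ (x₀ + t • v) v - k t)
    (by filter_upwards [hl1, hd] with t h1 h2 using h1.sub h2) (hl2.sub hk)
  simp only [zero_smul, add_zero] at this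
  exact ⟨by linarith [this.1], by linarith [this.2]⟩

/-- touching from below -/
lemma touch_below {x₀ v : E} {φ u : E → ℝ} (hφ : ContDiffAt ℝ 2 φ x₀)
    (hmin : IsLocalMin (fun x => u x - φ x) x₀) {h k : ℝ → ℝ} {c : ℝ} (h0 : h 0 = u x₀)
    (hle : ∀ᶠ t in 𝓝 (0 : ℝ), u (x₀ + t • v) ≤ h t)
    (hd : ∀ᶠ t in 𝓝 (0 : ℝ), HasDerivAt h (k t) t) (hk : HasDerivAt k c 0) :
    fderiv ℝ φ x₀ v = k 0 ∧ fderiv ℝ (fderiv ℝ φ) x₀ v v ≤ c := by
  obtain ⟨hl1, hl2⟩ := line_deriv (v := v) hφ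
  have hcont : Tendsto (fun t : ℝ => x₀ + t • v) (𝓝 0) (𝓝 x₀) := by
    have : Continuous (fun t : ℝ => x₀ + t • v) := by fun_prop
    simpa using this.tendsto 0
  have hmin' : IsLocalMin (fun t : ℝ => h t - φ (x₀ + t • v)) 0 := by
    filter_upwards [hcont.eventually hmin, hle] with t h1 h2
    simp only [zero_smul, add_zero, h0]
    linarith
  have := one_dim_min hmin' (e1 := fun t => k t - fderiv ℝ φ (x₀ + t • v) v)
    (by filter_upwards [hl1, hd] with t h1 h2 using h2.sub h1) (hk.sub hl2)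
  simp only [zero_smul, add_zero] at this
  exact ⟨by linarith [this.1], by linarith [this.2]⟩

end Pool.Agent.W802.NU
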