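import Pool.Agent.W802.NUOde4
import Pool.Agent.W802.NUTouch
import Pool.Agent.W802.NUPolar
import Pool.Agent.W802.NUDefs

/-!
# Non-uniqueness for the normalized p-Laplace Dirichlet problem, `1 < p < 2`: the proof
-/

open Set Filter Topology Metric

namespace Pool.Agent.W802.NU

/-- the plane -/
abbrev R2 := EuclideanSpace ℝ (Fin 2)

/-- the point of the complex plane -/
noncomputable def zz (x : R2) : ℂ := ⟨x 0, x 1⟩

lemma zz_line (x v : R2) (t : ℝ) : zz (x + t • v) = zz x + (t : ℂ) * zz v := by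
  apply Complex.ext <;> simp [zz]

lemma zz_smul (x : R2) (t : ℝ) : zz (t • x) = (t : ℂ) * zz x := by
  apply Complex.ext <;> simp [zz]

lemma zz_cont : Continuous zz := by
  have : zz = fun x => (x 0 : ℂ) + (x 1 : ℂ) * Complex.I := by
    funext x; apply Complex.ext <;> simp [zz]
  rw [this]
  fun_prop

lemma normSq_zz (x : R2) : Complex.normSq (zz x) = ‖x‖ ^ 2 := by
  rw [EuclideanSpace.norm_sq_eq, Fin.sum_univ_two]
  simp [zz, Complex.normSq_apply, sq]

lemma zz_eq_zero {x : R2} : zz x = 0 ↔ x = 0 := by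
  rw [← Complex.normSq_eq_zero, normSq_zz]
  simp

/-- rotation by a right angle -/
noncomputable def perp (q : R2) : R2 := !₂[-q 1, q 0]

lemma decomp (q : R2) :
    q = q 0 • EuclideanSpace.single 0 (1 : ℝ) + q 1 • EuclideanSpace.single 1 (1 : ℝ) := by
  ext i; fin_cases i <;> simp

lemma norm_sq_two (q : R2) : ‖q‖ ^ 2 = q 0 ^ 2 + q 1 ^ 2 := by
  rw [EuclideanSpace.norm_sq_eq, Fin.sum_univ_two]
  simp

/-- the quadratic form of a matrix -/
def qf (X : Fin 2 → Fin 2 → ℝ) (v : R2) : ℝ :=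
  X 0 0 * v 0 ^ 2 + (X 0 1 + X 1 0) * (v 0 * v 1) + X 1 1 * v 1 ^ 2

lemma hess_quad {φ : R2 → ℝ} {x : R2} (hφ : ContDiffAt ℝ 2 φ x) (v : R2) :
    fderiv ℝ (fderiv ℝ φ) x v v = qf (hess φ x) v := by
  have h2 : DifferentiableAt ℝ (fderiv ℝ φ) x :=
    (hφ.fderiv_right (m := 1) (by norm_num)).differentiableAt (by norm_num)
  have hh : ∀ i j, hess φ x i j
      = fderiv ℝ (fderiv ℝ φ) x (EuclideanSpace.single i 1) (EuclideanSpace.single j 1) := by
    intro i j
    have h3 : HasFDerivAt (fun y => fderiv ℝ φ y (EuclideanSpace.single j (1 : ℝ)))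
        ((fderiv ℝ (fderiv ℝ φ) x).flip (EuclideanSpace.single j (1 : ℝ))) x := by
      have := h2.hasFDerivAt.clm_apply
        (hasFDerivAt_const (EuclideanSpace.single j (1 : ℝ) : R2) x)
      refine this.congr_fderiv ?_
      ext w
      simp
    unfold hess pd
    rw [h3.fderiv]
    simp
  have h1 : fderiv ℝ (fderiv ℝ φ) x v v
      = v 0 ^ 2 * fderiv ℝ (fderiv ℝ φ) x (EuclideanSpace.single 0 1) (EuclideanSpace.single 0 1)
      + v 0 * v 1 * (fderiv ℝ (fderiv ℝ φ) x (EuclideanSpace.single 0 1)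
          (EuclideanSpace.single 1 1)
        + fderiv ℝ (fderiv ℝ φ) x (EuclideanSpace.single 1 1) (EuclideanSpace.single 0 1))
      + v 1 ^ 2 * fderiv ℝ (fderiv ℝ φ) x (EuclideanSpace.single 1 1)
          (EuclideanSpace.single 1 1) := by
    conv_lhs => rw [decomp v]
    simp only [map_add, map_smul, add_apply, smul_apply, smul_eq_mul]
    ring
  rw [h1]
  unfold qf
  rw [hh, hh, hh, hh]
  ring

/-- vectors of the plane from coordinates -/
noncomputable def vec (q : Fin 2 → ℝ) : R2 := !₂[q 0, q 1]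

lemma opF_two (p : ℝ) {q : Fin 2 → ℝ} (hq : q 0 ^ 2 + q 1 ^ 2 ≠ 0) (Y : Fin 2 → Fin 2 → ℝ) :
    opF p q Y = ((p - 1) * qf Y (vec q) + qf Y (perp (vec q))) / (q 0 ^ 2 + q 1 ^ 2) := by
  unfold opF
  simp only [Fin.sum_univ_two]
  rw [eq_div_iff hq, add_mul, mul_assoc, div_mul_cancel₀ _ hq]
  simp only [qf, perp, vec]
  simp
  ring

lemma sq_pos_of_ne {q : Fin 2 → ℝ} (hq : q ≠ 0) : 0 < q 0 ^ 2 + q 1 ^ 2 := by
  by_contra hcon
  apply hq
  have h0 : q 0 = 0 := by nlinarith [sq_nonneg (q 0), sq_nonneg (q 1)]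
  have h1 : q 1 = 0 := by nlinarith [sq_nonneg (q 0), sq_nonneg (q 1)]
  ext i; fin_cases i
  · exact h0
  · exact h1

/-- A profile: `G > 0` or `G < 0`, `P = G'`, `Q = G''`, with
`F_p [r ^ 4 G] = r ^ 2 f`. -/
structure Prof (m : ℝ) (f G P Q : ℝ → ℝ) : Prop where
  dG : ∀ t, HasDerivAt G (P t) t
  dP : ∀ t, HasDerivAt P (Q t) t
  per : ∀ t, G (t + 2 * Real.pi) = G t
  ne : ∀ t, G t ≠ 0
  bd : ∀ t, |G t| ≤ 3 / 2
  rel : ∀ t, f t * (16 * G t ^ 2 + P t ^ 2) = (Q t + 16 * G t) * (16 * G t ^ 2 + m * P t ^ 2)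
    - 12 * (1 - m) * G t * (16 * G t ^ 2 + P t ^ 2)

/-- `r ^ 4 G(θ) + c` -/
noncomputable def UU (G : ℝ → ℝ) (c : ℝ) (x : R2) : ℝ :=
  Complex.normSq (zz x) ^ 2 * G (Complex.arg (zz x)) + c

/-- `r ^ 2 f(θ)` -/
noncomputable def ff (f : ℝ → ℝ) (x : R2) : ℝ :=
  Complex.normSq (zz x) ^ 1 * f (Complex.arg (zz x))

/-- the gradient of `UU` -/
noncomputable def lin (G P : ℝ → ℝ) (x v : R2) : ℝ :=
  Complex.normSq (zz x) * (4 * (x 0 * v 0 + x 1 * v 1) * G (Complex.arg (zz x))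
        + (x 0 * v 1 - x 1 * v 0) * P (Complex.arg (zz x)))

/-- the Hessian of `UU` -/
noncomputable def quad (G P Q : ℝ → ℝ) (x v : R2) : ℝ :=
  (8 * (x 0 * v 0 + x 1 * v 1) ^ 2
        + 4 * Complex.normSq (zz x) * Complex.normSq (zz v)) * G (Complex.arg (zz x))
        + 6 * (x 0 * v 0 + x 1 * v 1) * (x 0 * v 1 - x 1 * v 0) * P (Complex.arg (zz x))
        + (x 0 * v 1 - x 1 * v 0) ^ 2 * Q (Complex.arg (zz x))

lemma UU_line {m : ℝ} {f G P Q : ℝ → ℝ} (h : Prof m f G P Q) (c : ℝ) {x : R2} (hx : x ≠ 0)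
    (v : R2) : ∃ e k : ℝ → ℝ, (∀ᶠ t : ℝ in 𝓝 0, e t = UU G c (x + t • v)) ∧
      (∀ᶠ t : ℝ in 𝓝 0, HasDerivAt e (k t) t) ∧ k 0 = lin G P x v ∧
      HasDerivAt k (quad G P Q x v) 0 := by
  obtain ⟨e, k, h1, h2, h3, h4⟩ := line_polar h.dG h.dP h.per (z := zz x) (w := zz v)
    (fun hz => hx (zz_eq_zero.mp hz))
  refine ⟨fun t => e t + c, k, ?_, ?_, ?_, ?_⟩
  · filter_upwards [h1] with t ht
    rw [ht, UU, zz_line]
  · filter_upwards [h2] with t ht
    exact ht.add_const c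
  · rw [h3]; rfl
  · exact h4

lemma grad_eq {φ : R2 → ℝ} {x : R2} {a b : ℝ}
    (h : ∀ v : R2, fderiv ℝ φ x v = a * v 0 + b * v 1) :
    grad φ x 0 = a ∧ grad φ x 1 = b := by
  constructor
  · unfold grad pd; rw [h]; simp
  · unfold grad pd; rw [h]; simp

/-- the algebraic identity behind the construction -/
lemma key_identity {m : ℝ} {f G P Q : ℝ → ℝ} (h : Prof m f G P Q) {x : R2} {q : Fin 2 → ℝ}
    (hx : x ≠ 0)
    (hq0 : q 0 = Complex.normSq (zz x) *
      (4 * x 0 * G (Complex.arg (zz x)) - x 1 * P (Complex.arg (zz x))))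
    (hq1 : q 1 = Complex.normSq (zz x) *
      (4 * x 1 * G (Complex.arg (zz x)) + x 0 * P (Complex.arg (zz x)))) :
    0 < q 0 ^ 2 + q 1 ^ 2 ∧
      (m * quad G P Q x (vec q) + quad G P Q x (perp (vec q))) / (q 0 ^ 2 + q 1 ^ 2) = ff f x := by
  have hrel := h.rel (Complex.arg (zz x))
  have hGne := h.ne (Complex.arg (zz x))
  have hρ : Complex.normSq (zz x) = x 0 ^ 2 + x 1 ^ 2 := by
    rw [normSq_zz, norm_sq_two]
  have hρpos : 0 < x 0 ^ 2 + x 1 ^ 2 := by
    rw [← norm_sq_two]; positivity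
  set g := G (Complex.arg (zz x)) with hg
  set P' := P (Complex.arg (zz x)) with hP'
  have hqn : q 0 ^ 2 + q 1 ^ 2 = (x 0 ^ 2 + x 1 ^ 2) ^ 3 * (16 * g ^ 2 + P' ^ 2) := by
    rw [hq0, hq1, hρ]; ring
  have hpos : 0 < q 0 ^ 2 + q 1 ^ 2 := by rw [hqn]; positivity
  refine ⟨hpos, ?_⟩
  rw [div_eq_iff hpos.ne']
  have hp0 : perp (vec q) 0 = - q 1 := by simp [perp, vec]
  have hp1 : perp (vec q) 1 = q 0 := by simp [perp, vec]
  have hv0 : vec q 0 = q 0 := by simp [vec]
  have hv1 : vec q 1 = q 1 := by simp [vec]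
  have n1 : Complex.normSq (zz (vec q)) = q 0 ^ 2 + q 1 ^ 2 := by
    rw [normSq_zz, norm_sq_two, hv0, hv1]
  have n2 : Complex.normSq (zz (perp (vec q))) = q 0 ^ 2 + q 1 ^ 2 := by
    rw [normSq_zz, norm_sq_two, hp0, hp1]; ring
  unfold quad ff
  rw [← hg, ← hP', n1, n2, hqn, hp0, hp1, hv0, hv1, hq0, hq1, hρ]
  linear_combination (-(x 0 ^ 2 + x 1 ^ 2) ^ 4) * hrel

theorem sub_ne {m : ℝ} (hm : 0 < m) {f G P Q : ℝ → ℝ} (h : Prof m f G P Q) (c : ℝ)
    {x : R2} (hx : x ≠ 0) {φ : R2 → ℝ} (hφ : ContDiffAt ℝ 2 φ x)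
    (hmax : IsLocalMax (fun y => UU G c y - φ y) x) :
    grad φ x ≠ 0 ∧ ff f x ≤ opF (1 + m) (grad φ x) (hess φ x) := by
  have hall : ∀ v : R2, fderiv ℝ φ x v = lin G P x v ∧ quad G P Q x v ≤ qf (hess φ x) v := by
    intro v
    obtain ⟨e, k, h1, h2, h3, h4⟩ := UU_line h c hx v
    have := touch_above hφ hmax (h := e) (k := k) (c := quad G P Q x v) (v := v)
      (by have := h1.self_of_nhds; simpa using this) (h1.mono fun t ht => ht.le) h2 h4
    rw [h3, hess_quad hφ] at this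
    exact this
  obtain ⟨g0, g1⟩ := grad_eq (φ := φ) (x := x)
    (a := Complex.normSq (zz x) *
      (4 * x 0 * G (Complex.arg (zz x)) - x 1 * P (Complex.arg (zz x))))
    (b := Complex.normSq (zz x) *
      (4 * x 1 * G (Complex.arg (zz x)) + x 0 * P (Complex.arg (zz x))))
    (fun v => by rw [(hall v).1]; unfold lin; ring)
  obtain ⟨hq, hid⟩ := key_identity h hx g0 g1
  refine ⟨fun h0 => by rw [h0] at hq; simp at hq, ?_⟩
  rw [opF_two _ hq.ne', ← hid]
  have e : (1 + m - 1) = m := by ring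
  rw [e]
  gcongr
  · exact (hall _).2
  · exact (hall _).2

theorem super_ne {m : ℝ} (hm : 0 < m) {f G P Q : ℝ → ℝ} (h : Prof m f G P Q) (c : ℝ)
    {x : R2} (hx : x ≠ 0) {φ : R2 → ℝ} (hφ : ContDiffAt ℝ 2 φ x)
    (hmin : IsLocalMin (fun y => UU G c y - φ y) x) :
    grad φ x ≠ 0 ∧ opF (1 + m) (grad φ x) (hess φ x) ≤ ff f x := by
  have hall : ∀ v : R2, fderiv ℝ φ x v = lin G P x v ∧ qf (hess φ x) v ≤ quad G P Q x v := by
    intro v
    obtain ⟨e, k, h1, h2, h3, h4⟩ := UU_line h c hx v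
    have := touch_below hφ hmin (h := e) (k := k) (c := quad G P Q x v) (v := v)
      (by have := h1.self_of_nhds; simpa using this) (h1.mono fun t ht => ht.ge) h2 h4
    rw [h3, hess_quad hφ] at this
    exact this
  obtain ⟨g0, g1⟩ := grad_eq (φ := φ) (x := x)
    (a := Complex.normSq (zz x) *
      (4 * x 0 * G (Complex.arg (zz x)) - x 1 * P (Complex.arg (zz x))))
    (b := Complex.normSq (zz x) *
      (4 * x 1 * G (Complex.arg (zz x)) + x 0 * P (Complex.arg (zz x))))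
    (fun v => by rw [(hall v).1]; unfold lin; ring)
  obtain ⟨hq, hid⟩ := key_identity h hx g0 g1
  refine ⟨fun h0 => by rw [h0] at hq; simp at hq, ?_⟩
  rw [opF_two _ hq.ne', ← hid]
  have e : (1 + m - 1) = m := by ring
  rw [e]
  gcongr
  · exact (hall _).2
  · exact (hall _).2

lemma normSq_smul (x : R2) (t : ℝ) :
    Complex.normSq (zz (t • x)) = t ^ 2 * Complex.normSq (zz x) := by
  rw [zz_smul, map_mul, Complex.normSq_ofReal]; ring

lemma UU_zero (G : ℝ → ℝ) (c : ℝ) : UU G c 0 = c := by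
  have : zz (0 : R2) = 0 := zz_eq_zero.mpr rfl
  simp [UU, this]

lemma grad_zero {φ : R2 → ℝ} {x : R2} (h : ∀ v : R2, fderiv ℝ φ x v = 0) :
    grad φ x = 0 := by
  funext i
  exact h _

theorem sub_zero' {G : ℝ → ℝ} (hb : ∀ t, |G t| ≤ 3 / 2) (c : ℝ) {φ : R2 → ℝ}
    (hφ : ContDiffAt ℝ 2 φ 0) (hmax : IsLocalMax (fun y => UU G c y - φ y) 0) :
    grad φ 0 = 0 ∧ ∀ v, 0 ≤ qf (hess φ 0) v := by
  have hall : ∀ v : R2, fderiv ℝ φ 0 v = 0 ∧ 0 ≤ qf (hess φ 0) v := by
    intro v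
    have := touch_above hφ hmax (h := fun t => c - 3 / 2 * Complex.normSq (zz v) ^ 2 * t ^ 4)
      (k := fun t => - (6 * Complex.normSq (zz v) ^ 2 * t ^ 3)) (c := 0) (v := v)
      (by simp [UU_zero]) (Eventually.of_forall fun t => by
        simp only [zero_add]
        have h1 := (abs_le.mp (hb (Complex.arg (zz (t • v))))).1
        unfold UU
        rw [normSq_smul]
        have h2 : 0 ≤ (t ^ 2 * Complex.normSq (zz v)) ^ 2 := by positivity
        nlinarith)
      (Eventually.of_forall fun t => by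
        have := (((hasDerivAt_id t).pow 4).const_mul
          (3 / 2 * Complex.normSq (zz v) ^ 2)).const_sub c
        refine this.congr_deriv ?_
        simp
        ring)
      (by
        have := (((hasDerivAt_id (0 : ℝ)).pow 3).const_mul
          (6 * Complex.normSq (zz v) ^ 2)).neg
        refine this.congr_deriv ?_
        simp)
    rw [hess_quad hφ] at this
    simpa using this
  exact ⟨grad_zero fun v => (hall v).1, fun v => (hall v).2⟩

theorem super_zero' {G : ℝ → ℝ} (hb : ∀ t, |G t| ≤ 3 / 2) (c : ℝ) {φ : R2 → ℝ}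
    (hφ : ContDiffAt ℝ 2 φ 0) (hmin : IsLocalMin (fun y => UU G c y - φ y) 0) :
    grad φ 0 = 0 ∧ ∀ v, qf (hess φ 0) v ≤ 0 := by
  have hall : ∀ v : R2, fderiv ℝ φ 0 v = 0 ∧ qf (hess φ 0) v ≤ 0 := by
    intro v
    have := touch_below hφ hmin (h := fun t => c + 3 / 2 * Complex.normSq (zz v) ^ 2 * t ^ 4)
      (k := fun t => (6 * Complex.normSq (zz v) ^ 2 * t ^ 3)) (c := 0) (v := v)
      (by simp [UU_zero]) (Eventually.of_forall fun t => by
        simp only [zero_add]
        have h1 := (abs_le.mp (hb (Complex.arg (zz (t • v))))).2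
        unfold UU
        rw [normSq_smul]
        have h2 : 0 ≤ (t ^ 2 * Complex.normSq (zz v)) ^ 2 := by positivity
        nlinarith)
      (Eventually.of_forall fun t => by
        have := (((hasDerivAt_id t).pow 4).const_mul
          (3 / 2 * Complex.normSq (zz v) ^ 2)).const_add c
        refine this.congr_deriv ?_
        simp
        ring)
      (by
        have := (((hasDerivAt_id (0 : ℝ)).pow 3).const_mul
          (6 * Complex.normSq (zz v) ^ 2))
        refine this.congr_deriv ?_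
        simp)
    rw [hess_quad hφ] at this
    simpa using this
  exact ⟨grad_zero fun v => (hall v).1, fun v => (hall v).2⟩

lemma tendsto_env (X : Fin 2 → Fin 2 → ℝ) :
    Tendsto (fun q : Fin 2 → ℝ => (q, X)) (𝓝[≠] 0) (𝓝[{z | z.1 ≠ 0}] ((0 : Fin 2 → ℝ), X)) := by
  rw [tendsto_nhdsWithin_iff]
  constructor
  · have : Continuous (fun q : Fin 2 → ℝ => (q, X)) := by fun_prop
    exact (this.tendsto 0).mono_left nhdsWithin_le_nhds
  · filter_upwards [self_mem_nhdsWithin] with q hq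
    exact hq

theorem upperEnv_nonneg {p : ℝ} (hp : 1 < p) {X : Fin 2 → Fin 2 → ℝ} (hX : ∀ v, 0 ≤ qf X v) :
    (0 : EReal) ≤ upperEnv p X := by
  have : NeBot (𝓝[≠] (0 : Fin 2 → ℝ)) := Module.punctured_nhds_neBot ℝ (Fin 2 → ℝ) 0
  unfold upperEnv
  refine le_limsup_of_frequently_le ?_
  refine (tendsto_env X).frequently (Eventually.frequently ?_)
  filter_upwards [self_mem_nhdsWithin] with q hq
  have hq' : 0 < q 0 ^ 2 + q 1 ^ 2 := sq_pos_of_ne hq
  have h1 := hX (vec q)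
  have h2 := hX (perp (vec q))
  have hp' : 0 < p - 1 := by linarith
  have : 0 ≤ opF p q X := by rw [opF_two p hq'.ne']; positivity
  exact_mod_cast this

theorem lowerEnv_nonpos {p : ℝ} (hp : 1 < p) {X : Fin 2 → Fin 2 → ℝ} (hX : ∀ v, qf X v ≤ 0) :
    lowerEnv p X ≤ (0 : EReal) := by
  have : NeBot (𝓝[≠] (0 : Fin 2 → ℝ)) := Module.punctured_nhds_neBot ℝ (Fin 2 → ℝ) 0
  unfold lowerEnv
  refine liminf_le_of_frequently_le ?_
  refine (tendsto_env X).frequently (Eventually.frequently ?_)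
  filter_upwards [self_mem_nhdsWithin] with q hq
  have hq' : 0 < q 0 ^ 2 + q 1 ^ 2 := sq_pos_of_ne hq
  have h1 := hX (vec q)
  have h2 := hX (perp (vec q))
  have hp' : 0 < p - 1 := by linarith
  have : opF p q X ≤ 0 := by
    rw [opF_two p hq'.ne']
    apply div_nonpos_of_nonpos_of_nonneg _ hq'.le
    nlinarith
  exact_mod_cast this

lemma ff_zero (f : ℝ → ℝ) : ff f 0 = 0 := by
  have : zz (0 : R2) = 0 := zz_eq_zero.mpr rfl
  simp [ff, this]

theorem isSub {m : ℝ} (hm : 0 < m) {f G P Q : ℝ → ℝ} (h : Prof m f G P Q) (c : ℝ)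
    (Ω : Set (R2)) : IsSubsolution (1 + m) Ω (ff f) (UU G c) := by
  intro x _ φ hφ hmax
  rcases eq_or_ne x 0 with rfl | hx
  · obtain ⟨h1, h2⟩ := sub_zero' h.bd c hφ hmax
    refine ⟨fun hne => absurd h1 hne, fun _ => ?_⟩
    rw [ff_zero]
    exact_mod_cast upperEnv_nonneg (by linarith) h2
  · obtain ⟨h1, h2⟩ := sub_ne hm h c hx hφ hmax
    exact ⟨fun _ => h2, fun h0 => absurd h0 h1⟩

theorem isSuper {m : ℝ} (hm : 0 < m) {f G P Q : ℝ → ℝ} (h : Prof m f G P Q) (c : ℝ)
    (Ω : Set (R2)) : IsSupersolution (1 + m) Ω (ff f) (UU G c) := by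
  intro x _ φ hφ hmin
  rcases eq_or_ne x 0 with rfl | hx
  · obtain ⟨h1, h2⟩ := super_zero' h.bd c hφ hmin
    refine ⟨fun hne => absurd h1 hne, fun _ => ?_⟩
    rw [ff_zero]
    exact_mod_cast lowerEnv_nonpos (by linarith) h2
  · obtain ⟨h1, h2⟩ := super_ne hm h c hx hφ hmin
    exact ⟨fun _ => h2, fun h0 => absurd h0 h1⟩

/-- continuity of `r ^ (2 j) G(θ)` -/
lemma cont_polar {G : ℝ → ℝ} (hGc : Continuous G) (hper : ∀ t, G (t + 2 * Real.pi) = G t) {C : ℝ}
    (hb : ∀ t, |G t| ≤ C) {j : ℕ} (hj : j ≠ 0) :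
    Continuous (fun z : ℂ => Complex.normSq z ^ j * G (Complex.arg z)) := by
  rw [continuous_iff_continuousAt]
  intro z₀
  rcases eq_or_ne z₀ 0 with rfl | hz
  · have h0 : Tendsto (fun z : ℂ => C * Complex.normSq z ^ j) (𝓝 0) (𝓝 0) := by
      have : Continuous (fun z : ℂ => C * Complex.normSq z ^ j) := by fun_prop
      have h := this.tendsto 0
      simpa [hj] using h
    have : Tendsto (fun z : ℂ => Complex.normSq z ^ j * G (Complex.arg z)) (𝓝 0) (𝓝 0) := by
      refine squeeze_zero_norm (fun z => ?_) h0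
      rw [Real.norm_eq_abs, abs_mul, abs_of_nonneg (by have := Complex.normSq_nonneg z; positivity)]
      rw [mul_comm]
      have := Complex.normSq_nonneg z
      gcongr
      exact hb _
    unfold ContinuousAt
    simpa [hj] using this
  · have hc : ContinuousAt (fun z : ℂ => G (Complex.arg z₀ + Complex.arg (z / z₀))) z₀ := by
      have h1 : ContinuousAt (fun z : ℂ => z / z₀) z₀ := by fun_prop
      have h2 : ContinuousAt Complex.arg (z₀ / z₀) :=
        Complex.continuousAt_arg (by rw [div_self hz]; simp)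
      have h3 : ContinuousAt (fun z : ℂ => Complex.arg (z / z₀)) z₀ :=
        ContinuousAt.comp (f := fun z : ℂ => z / z₀) (g := Complex.arg) h2 h1
      exact hGc.continuousAt.comp (continuousAt_const.add h3)
    have hev : (fun z : ℂ => G (Complex.arg z)) =ᶠ[𝓝 z₀]
        fun z : ℂ => G (Complex.arg z₀ + Complex.arg (z / z₀)) := by
      filter_upwards [isOpen_ne.mem_nhds hz] with z hz'
      apply periodic_angle hper
      have hz'' : z ≠ 0 := hz'
      have e : Complex.arg z = Complex.arg (z₀ * (z / z₀)) := by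
        congr 1; field_simp
      rw [e, Complex.arg_mul_coe_angle hz (div_ne_zero hz'' hz)]
      simp
    have h4 : ContinuousAt (fun z : ℂ => G (Complex.arg z)) z₀ := hc.congr hev.symm
    have h5 : ContinuousAt (fun z : ℂ => Complex.normSq z ^ j) z₀ := by fun_prop
    exact h5.mul h4

lemma UU_cont {m : ℝ} {f G P Q : ℝ → ℝ} (h : Prof m f G P Q) (c : ℝ) : Continuous (UU G c) := by
  have hGc : Continuous G := continuous_iff_continuousAt.mpr fun t => (h.dG t).continuousAt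
  exact ((cont_polar hGc h.per h.bd two_ne_zero).comp zz_cont).add continuous_const

lemma prof_of {m : ℝ} (hm : 0 < m) {N : ℕ} (hN : 0 < N) {F : ℝ} {g y : ℝ → ℝ}
    (hg : ∀ t, HasDerivAt g (4 * (1 / (N : ℝ)) * y t) t)
    (hy : ∀ t, HasDerivAt y (rhs m (1 / (N : ℝ)) F t (g t) (y t)) t)
    (hb : ∀ t, g t ∈ Icc (1 / 2 : ℝ) (3 / 2)) (hper : ∀ t, g (t + 2 * Real.pi) = g t)
    {σ : ℝ} (hσ : σ ^ 2 = 1) (b : ℝ) :
    Prof m (fun θ => -(σ * (4 * N * F * Real.cos (N * θ + b)))) (fun θ => σ * g (N * θ + b))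
      (fun θ => σ * (4 * y (N * θ + b)))
      (fun θ => σ * (4 * (rhs m (1 / (N : ℝ)) F (N * θ + b) (g (N * θ + b)) (y (N * θ + b)) * N))) := by
  have hN' : (N : ℝ) ≠ 0 := by positivity
  have hline : ∀ t : ℝ, HasDerivAt (fun θ : ℝ => N * θ + b) (N : ℝ) t := fun t => by
    simpa using ((hasDerivAt_id t).const_mul (N : ℝ)).add_const b
  constructor
  · intro t
    refine (((hg _).comp t (hline t)).const_mul σ).congr_deriv ?_
    field_simp
  · intro t
    exact (((hy _).comp t (hline t)).const_mul 4).const_mul σ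
  · intro t
    have hp : Function.Periodic g (2 * Real.pi) := hper
    have e : (N : ℝ) * (t + 2 * Real.pi) + b = (N * t + b) + N * (2 * Real.pi) := by ring
    simp only [e]
    rw [hp.nat_mul N]
  · intro t
    have h1 := (hb (N * t + b)).1
    have hσ0 : σ ≠ 0 := by rintro rfl; norm_num at hσ
    exact mul_ne_zero hσ0 (by linarith : (0 : ℝ) < g (N * t + b)).ne'
  · intro t
    have h1 := hb (N * t + b)
    have hσ1 : |σ| = 1 := by
      have : |σ| ^ 2 = 1 := by rw [sq_abs]; exact hσ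
      nlinarith [abs_nonneg σ]
    rw [abs_mul, hσ1, one_mul, abs_of_nonneg (by linarith [h1.1])]
    exact h1.2
  · intro t
    generalize N * t + b = s
    have hg0 : 0 < g s := by have := (hb s).1; linarith
    have hden := (denom_pos (y := y s) hm hg0).ne'
    have hA : A m (g s) (y s) * (g s ^ 2 + m * y s ^ 2) = g s ^ 2 + y s ^ 2 := by
      unfold A; field_simp
    have hr : rhs m (1 / (N : ℝ)) F s (g s) (y s) * N
        = (3 * (1 - m) * A m (g s) (y s) - 4) * g s - N * F * Real.cos s * A m (g s) (y s) := by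
      unfold rhs; field_simp
    rw [hr]
    generalize A m (g s) (y s) = a at *
    generalize Real.cos s = c at *
    generalize g s = G at *
    generalize y s = Y at *
    have e1 : (σ * G) ^ 2 = G ^ 2 := by rw [mul_pow, hσ, one_mul]
    have e2 : (σ * (4 * Y)) ^ 2 = 16 * Y ^ 2 := by rw [mul_pow, hσ]; ring
    rw [e1, e2]
    linear_combination (-16 * σ * (12 * (1 - m) * G - 4 * N * F * c)) * hA

theorem main : ∀ p : ℝ, 1 < p → p < 2 → ¬ Uniqueness 2 p := by
  intro p hp1 hp2 huniq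
  obtain ⟨m, rfl⟩ : ∃ m, p = 1 + m := ⟨p - 1, by ring⟩
  have hm : 0 < m := by linarith
  have hm1 : m < 1 := by linarith
  obtain ⟨N, hN, F, g, y, hg, hy, hb, hper⟩ := exists_profile hm hm1
  have hp1 := prof_of hm hN hg hy hb hper (σ := 1) (by norm_num) 0
  have hp2 := prof_of hm hN hg hy hb hper (σ := -1) (by norm_num) Real.pi
  have hf : (fun θ : ℝ => -((-1) * (4 * N * F * Real.cos (N * θ + Real.pi))))
      = (fun θ : ℝ => -(1 * (4 * N * F * Real.cos (N * θ + 0)))) := by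
    funext θ
    rw [Real.cos_add_pi, add_zero]; ring
  rw [hf] at hp2
  set f : ℝ → ℝ := fun θ : ℝ => -(1 * (4 * N * F * Real.cos (N * θ + 0))) with hfdef
  set G1 : ℝ → ℝ := fun θ => 1 * g (N * θ + 0) with hG1
  set G2 : ℝ → ℝ := fun θ => -1 * g (N * θ + Real.pi) with hG2
  have b1 : ∀ t, 1 / 2 ≤ G1 t := fun t => by simp only [hG1, one_mul]; exact (hb _).1
  have b2 : ∀ t, G2 t ≤ -(1 / 2) := fun t => by
    simp only [hG2]; have := (hb (N * t + Real.pi)).1; linarith
  have c1 := UU_cont hp1 0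
  have c2 := UU_cont hp2 1
  have h0mem : (0 : R2) ∈ {x : R2 | UU G1 0 x < UU G2 1 x} := by
    change UU G1 0 0 < UU G2 1 0
    rw [UU_zero, UU_zero]; norm_num
  have heq := huniq {x | UU G1 0 x < UU G2 1 x} (isOpen_lt c1 c2) ?_ ?_ (ff f) (UU G1 0) ?_
    c1.continuousOn (UU G1 0) (UU G2 1) ?_ ?_
  · have := heq (subset_closure h0mem)
    rw [UU_zero, UU_zero] at this
    norm_num at this
  · -- connected
    have hstar : StarConvex ℝ (0 : R2) {x : R2 | UU G1 0 x < UU G2 1 x} := by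
      rw [starConvex_zero_iff]
      intro x hx a ha0 ha1
      rcases ha0.eq_or_lt with rfl | ha
      · rw [zero_smul]; exact h0mem
      · change UU G1 0 x < UU G2 1 x at hx
        change UU G1 0 (a • x) < UU G2 1 (a • x)
        unfold UU at hx ⊢
        rw [normSq_smul, zz_smul, Complex.arg_real_mul _ ha]
        have h1 := b1 (Complex.arg (zz x))
        have h2 := b2 (Complex.arg (zz x))
        have h3 : 0 ≤ Complex.normSq (zz x) ^ 2 := by positivity
        have h4 : a ^ 4 ≤ 1 := pow_le_one₀ ha.le ha1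
        have h5 : 0 ≤ Complex.normSq (zz x) ^ 2 *
          (G1 (Complex.arg (zz x)) - G2 (Complex.arg (zz x))) := mul_nonneg h3 (by linarith)
        have h6 : a ^ 4 * (Complex.normSq (zz x) ^ 2 *
          (G1 (Complex.arg (zz x)) - G2 (Complex.arg (zz x)))) ≤
          1 * (Complex.normSq (zz x) ^ 2 *
          (G1 (Complex.arg (zz x)) - G2 (Complex.arg (zz x)))) := by gcongr
        have e1 : (a ^ 2 * Complex.normSq (zz x)) ^ 2 * G1 (Complex.arg (zz x)) + 0
          - ((a ^ 2 * Complex.normSq (zz x)) ^ 2 * G2 (Complex.arg (zz x)) + 1) =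
          a ^ 4 * (Complex.normSq (zz x) ^ 2 *
          (G1 (Complex.arg (zz x)) - G2 (Complex.arg (zz x)))) - 1 := by ring
        have e2 : 1 * (Complex.normSq (zz x) ^ 2 *
          (G1 (Complex.arg (zz x)) - G2 (Complex.arg (zz x)))) - 1 < 0 := by linarith
        linarith
    exact (hstar.isPathConnected h0mem).isConnected
  · -- bounded
    refine (Metric.isBounded_ball (x := (0 : R2)) (r := 1)).subset ?_
    intro x hx
    change UU G1 0 x < UU G2 1 x at hx
    rw [mem_ball_zero_iff]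
    unfold UU at hx
    rw [normSq_zz] at hx
    have h1 := b1 (Complex.arg (zz x))
    have h2 := b2 (Complex.arg (zz x))
    by_contra hcon
    rw [not_lt] at hcon
    have h3 : 1 ≤ (‖x‖ ^ 2) ^ 2 := by
      have : 1 ≤ ‖x‖ ^ 2 := one_le_pow₀ hcon
      exact one_le_pow₀ this
    nlinarith
  · -- continuity of the source
    have hfc : Continuous f := by rw [hfdef]; fun_prop
    have hfper : ∀ t, f (t + 2 * Real.pi) = f t := by
      intro t
      simp only [hfdef]
      have e : (N : ℝ) * (t + 2 * Real.pi) + 0 = (N * t + 0) + N * (2 * Real.pi) := by ring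
      rw [e, Real.cos_add_nat_mul_two_pi]
    have hfb : ∀ t, |f t| ≤ |4 * N * F| := by
      intro t
      simp only [hfdef]
      rw [abs_neg, one_mul, abs_mul]
      calc |4 * N * F| * |Real.cos (N * t + 0)| ≤ |4 * N * F| * 1 := by
            gcongr; exact Real.abs_cos_le_one _
        _ = _ := mul_one _
    exact ((cont_polar hfc hfper hfb one_ne_zero).comp zz_cont).continuousOn
  · exact ⟨c1.continuousOn, isSub hm hp1 0 _, isSuper hm hp1 0 _, fun _ _ => rfl⟩
  · refine ⟨c2.continuousOn, isSub hm hp2 1 _, isSuper hm hp2 1 _, fun x hx => ?_⟩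
    exact (frontier_lt_subset_eq c1 c2 hx).symm


end Pool.Agent.W802.NU
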