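import Mathlib

open Set Filter Topology Metric
open scoped NNReal

namespace Pool.Agent.W802.NU

/-- Flow of a bounded, globally Lipschitz, time dependent vector field on `[-R, R]`. -/
theorem flow_exists {E : Type*} [NormedAddCommGroup E] [NormedSpace ℝ E] [CompleteSpace E]
    (f : ℝ → E → E) (K L R r : ℝ≥0)
    (hLip : ∀ t, LipschitzWith K (f t)) (hcont : ∀ x, Continuous fun t => f t x)
    (hb : ∀ t x, ‖f t x‖ ≤ L) (x₀ : E) :
    ∃ α : E → ℝ → E, (∀ x ∈ closedBall x₀ (r : ℝ), α x 0 = x ∧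
      ∀ t ∈ Icc (-(R : ℝ)) R, HasDerivWithinAt (α x) (f t (α x t)) (Icc (-(R : ℝ)) R) t) ∧
      ∃ L' : ℝ≥0, ∀ t ∈ Icc (-(R : ℝ)) R,
        LipschitzOnWith L' (fun x => α x t) (closedBall x₀ (r : ℝ)) := by
  have h0 : (0 : ℝ) ∈ Icc (-(R : ℝ)) R := ⟨by simp, by simp⟩
  have hPL : IsPicardLindelof f (⟨0, h0⟩ : Icc (-(R : ℝ)) (R : ℝ)) x₀ (r + L * R) r L K :=
    { lipschitzOnWith := fun t _ => (hLip t).lipschitzOnWith
      continuousOn := fun x _ => (hcont x).continuousOn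
      norm_le := fun t _ x _ => hb t x
      mul_max_le := by simp }
  obtain ⟨α, h1, h2⟩ := hPL.exists_forall_mem_closedBall_eq_hasDerivWithinAt_lipschitzOnWith
  exact ⟨α, h1, h2⟩

/-- The coefficient `1 / (1 - κ s)`. -/
noncomputable def A (m g y : ℝ) : ℝ := (g ^ 2 + y ^ 2) / (g ^ 2 + m * y ^ 2)

/-- The clamp. -/
noncomputable def cl (a b x : ℝ) : ℝ := max a (min b x)

lemma cl_mem {a b : ℝ} (hab : a ≤ b) (x : ℝ) : cl a b x ∈ Icc a b := by
  unfold cl; exact ⟨le_max_left _ _, max_le hab (min_le_left _ _)⟩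

lemma cl_eq {a b x : ℝ} (hx : x ∈ Icc a b) : cl a b x = x := by
  unfold cl; rw [min_eq_right hx.2, max_eq_right hx.1]

lemma cl_lip (a b : ℝ) : LipschitzWith 1 (cl a b) := by
  unfold cl; exact (LipschitzWith.id.const_min b).const_max a

lemma cl_neg (M x : ℝ) (hM : 0 ≤ M) : cl (-M) M (-x) = - cl (-M) M x := by
  unfold cl
  rcases le_total M x with h | h
  · rw [min_eq_right (by linarith : -x ≤ M), min_eq_left h, max_eq_right (by linarith : -M ≤ M),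
      max_eq_left (by linarith)]
  · rw [min_eq_right h]
    rcases le_total (-M) x with h' | h'
    · rw [min_eq_right (by linarith : -x ≤ M), max_eq_right h', max_eq_right (by linarith)]
    · rw [min_eq_left (by linarith : M ≤ -x), max_eq_left h', max_eq_right (by linarith)]; ring

/-- time-independent part -/
noncomputable def v1 (m ε : ℝ) (x : ℝ × ℝ × ℝ) : ℝ × ℝ × ℝ :=
  (4 * ε * x.2.1, ε * (3 * (1 - m) * A m x.1 x.2.1 - 4) * x.1, 0)

/-- coefficient of `cos t` -/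
noncomputable def v2 (m : ℝ) (x : ℝ × ℝ × ℝ) : ℝ × ℝ × ℝ :=
  (0, -(x.2.2 * A m x.1 x.2.1), 0)

/-- the clamp of the state space -/
noncomputable def cc (M F : ℝ) (x : ℝ × ℝ × ℝ) : ℝ × ℝ × ℝ :=
  (cl (1 / 2) (3 / 2) x.1, cl (-M) M x.2.1, cl 0 F x.2.2)

/-- the box -/
def box (M F : ℝ) : Set (ℝ × ℝ × ℝ) := Icc (1 / 2) (3 / 2) ×ˢ (Icc (-M) M ×ˢ Icc 0 F)

lemma isCompact_box (M F : ℝ) : IsCompact (box M F) :=
  isCompact_Icc.prod (isCompact_Icc.prod isCompact_Icc)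

lemma cc_mem {M F : ℝ} (hM : 0 ≤ M) (hF : 0 ≤ F) (x : ℝ × ℝ × ℝ) : cc M F x ∈ box M F :=
  ⟨cl_mem (by norm_num) _, cl_mem (by linarith) _, cl_mem hF _⟩

lemma cc_lip (M F : ℝ) : LipschitzWith 1 (cc M F) := by
  have h1 : LipschitzWith 1 (fun x : ℝ × ℝ × ℝ => cl (1 / 2) (3 / 2) x.1) := by
    simpa [Function.comp_def] using (cl_lip (1 / 2) (3 / 2)).comp (LipschitzWith.prod_fst (α := ℝ) (β := ℝ × ℝ))
  have h2 : LipschitzWith 1 (fun x : ℝ × ℝ × ℝ => cl (-M) M x.2.1) := by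
    simpa [Function.comp_def] using (cl_lip (-M) M).comp
      ((LipschitzWith.prod_fst (α := ℝ) (β := ℝ)).comp (LipschitzWith.prod_snd (α := ℝ) (β := ℝ × ℝ)))
  have h3 : LipschitzWith 1 (fun x : ℝ × ℝ × ℝ => cl 0 F x.2.2) := by
    simpa [Function.comp_def] using (cl_lip 0 F).comp
      ((LipschitzWith.prod_snd (α := ℝ) (β := ℝ)).comp (LipschitzWith.prod_snd (α := ℝ) (β := ℝ × ℝ)))
  have h := h1.prodMk (h2.prodMk h3)
  rw [max_self, max_self] at h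
  exact h

lemma denom_pos {m g y : ℝ} (hm : 0 < m) (hg : 0 < g) : 0 < g ^ 2 + m * y ^ 2 := by positivity

lemma contDiffAt_v1 {m ε : ℝ} (hm : 0 < m) {x : ℝ × ℝ × ℝ} (hx : 0 < x.1) :
    ContDiffAt ℝ 1 (v1 m ε) x := by
  have hne : x.1 ^ 2 + m * x.2.1 ^ 2 ≠ 0 := (denom_pos hm hx).ne'
  unfold v1 A
  refine ContDiffAt.prodMk (by fun_prop) (ContDiffAt.prodMk ?_ contDiffAt_const)
  have : ContDiffAt ℝ 1 (fun x : ℝ × ℝ × ℝ => (x.1 ^ 2 + x.2.1 ^ 2) / (x.1 ^ 2 + m * x.2.1 ^ 2)) x :=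
    ContDiffAt.div (by fun_prop) (by fun_prop) hne
  fun_prop

lemma contDiffAt_v2 {m : ℝ} (hm : 0 < m) {x : ℝ × ℝ × ℝ} (hx : 0 < x.1) :
    ContDiffAt ℝ 1 (v2 m) x := by
  have hne : x.1 ^ 2 + m * x.2.1 ^ 2 ≠ 0 := (denom_pos hm hx).ne'
  unfold v2 A
  refine ContDiffAt.prodMk (by fun_prop) (ContDiffAt.prodMk ?_ contDiffAt_const)
  have : ContDiffAt ℝ 1 (fun x : ℝ × ℝ × ℝ => (x.1 ^ 2 + x.2.1 ^ 2) / (x.1 ^ 2 + m * x.2.1 ^ 2)) x :=
    ContDiffAt.div (by fun_prop) (by fun_prop) hne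
  fun_prop

lemma exists_lip_box {M F : ℝ} {v : ℝ × ℝ × ℝ → ℝ × ℝ × ℝ}
    (hv : ∀ x : ℝ × ℝ × ℝ, 0 < x.1 → ContDiffAt ℝ 1 v x) :
    ∃ K : ℝ≥0, LipschitzOnWith K v (box M F) := by
  apply LocallyLipschitzOn.exists_lipschitzOnWith_of_compact (isCompact_box M F)
  intro x hx
  have hx1 : 0 < x.1 := by have := hx.1.1; linarith
  obtain ⟨K, t, ht, hK⟩ := (hv x hx1).exists_lipschitzOnWith
  exact ⟨K, t, mem_nhdsWithin_of_mem_nhds ht, hK⟩

lemma exists_bound_box {M F : ℝ} {v : ℝ × ℝ × ℝ → ℝ × ℝ × ℝ}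
    (hv : ∀ x : ℝ × ℝ × ℝ, 0 < x.1 → ContDiffAt ℝ 1 v x) :
    ∃ L : ℝ≥0, ∀ x ∈ box M F, ‖v x‖ ≤ L := by
  obtain ⟨C, hC⟩ := (isCompact_box M F).exists_bound_of_continuousOn (f := v) (by
    intro x hx
    have hx1 : 0 < x.1 := by have := hx.1.1; linarith
    exact (hv x hx1).continuousAt.continuousWithinAt)
  exact ⟨C.toNNReal, fun x hx => (hC x hx).trans (Real.le_coe_toNNReal C)⟩

/-- The truncated vector field. -/
noncomputable def fld (m ε M F : ℝ) (t : ℝ) (x : ℝ × ℝ × ℝ) : ℝ × ℝ × ℝ :=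
  v1 m ε (cc M F x) + Real.cos t • v2 m (cc M F x)

theorem fld_flow {m ε M F : ℝ} (hm : 0 < m) (hM : 0 ≤ M) (hF : 0 ≤ F) (R r : ℝ≥0)
    (x₀ : ℝ × ℝ × ℝ) :
    (∃ K : ℝ≥0, ∀ t, LipschitzWith K (fld m ε M F t)) ∧
    ∃ α : (ℝ × ℝ × ℝ) → ℝ → (ℝ × ℝ × ℝ), (∀ x ∈ closedBall x₀ (r : ℝ), α x 0 = x ∧
      ∀ t ∈ Icc (-(R : ℝ)) R,
        HasDerivWithinAt (α x) (fld m ε M F t (α x t)) (Icc (-(R : ℝ)) R) t) ∧
      ∃ L' : ℝ≥0, ∀ t ∈ Icc (-(R : ℝ)) R,
        LipschitzOnWith L' (fun x => α x t) (closedBall x₀ (r : ℝ)) := by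
  obtain ⟨K1, hK1⟩ := exists_lip_box (M := M) (F := F) (v := v1 m ε)
    (fun x hx => contDiffAt_v1 hm hx)
  obtain ⟨K2, hK2⟩ := exists_lip_box (M := M) (F := F) (v := v2 m)
    (fun x hx => contDiffAt_v2 hm hx)
  obtain ⟨L1, hL1⟩ := exists_bound_box (M := M) (F := F) (v := v1 m ε)
    (fun x hx => contDiffAt_v1 hm hx)
  obtain ⟨L2, hL2⟩ := exists_bound_box (M := M) (F := F) (v := v2 m)
    (fun x hx => contDiffAt_v2 hm hx)
  have hlip : ∀ t, LipschitzWith (K1 + K2) (fld m ε M F t) := by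
    intro t
    refine LipschitzWith.of_dist_le_mul fun x y => ?_
    have hx := cc_mem hM hF x
    have hy := cc_mem hM hF y
    have h1 := hK1.dist_le_mul _ hx _ hy
    have h2 := hK2.dist_le_mul _ hx _ hy
    have h3 : dist (cc M F x) (cc M F y) ≤ dist x y := by
      simpa using (cc_lip M F).dist_le_mul x y
    have h4 : |Real.cos t| ≤ 1 := Real.abs_cos_le_one t
    unfold fld
    calc dist (v1 m ε (cc M F x) + Real.cos t • v2 m (cc M F x))
          (v1 m ε (cc M F y) + Real.cos t • v2 m (cc M F y))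
        ≤ dist (v1 m ε (cc M F x)) (v1 m ε (cc M F y))
          + dist (Real.cos t • v2 m (cc M F x)) (Real.cos t • v2 m (cc M F y)) :=
          dist_add_add_le _ _ _ _
      _ ≤ K1 * dist x y + K2 * dist x y := by
          gcongr
          · exact h1.trans (by gcongr)
          · rw [dist_smul₀, Real.norm_eq_abs]
            calc |Real.cos t| * dist (v2 m (cc M F x)) (v2 m (cc M F y))
                ≤ 1 * dist (v2 m (cc M F x)) (v2 m (cc M F y)) := by gcongr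
              _ ≤ K2 * dist x y := by rw [one_mul]; exact h2.trans (by gcongr)
      _ = _ := by push_cast; ring
  refine ⟨⟨K1 + K2, hlip⟩, ?_⟩
  refine flow_exists (fld m ε M F) (K1 + K2) (L1 + L2) R r hlip ?_ ?_ x₀
  · intro x
    unfold fld
    fun_prop
  · intro t x
    have hx := cc_mem hM hF x
    unfold fld
    calc ‖v1 m ε (cc M F x) + Real.cos t • v2 m (cc M F x)‖
        ≤ ‖v1 m ε (cc M F x)‖ + ‖Real.cos t • v2 m (cc M F x)‖ := norm_add_le _ _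
      _ ≤ L1 + L2 := by
          gcongr
          · exact hL1 _ hx
          · rw [norm_smul, Real.norm_eq_abs]
            calc |Real.cos t| * ‖v2 m (cc M F x)‖ ≤ 1 * ‖v2 m (cc M F x)‖ := by
                  gcongr; exact Real.abs_cos_le_one t
              _ ≤ L2 := by rw [one_mul]; exact hL2 _ hx
      _ = _ := by push_cast; ring

end Pool.Agent.W802.NU
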