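import Pool.Agent.W802.NUOde1

open Set Filter Topology Metric
open scoped NNReal

namespace Pool.Agent.W802.NU

lemma A_ge_one {m g y : ℝ} (hm : 0 < m) (hm1 : m < 1) (hg : 0 < g) : 1 ≤ A m g y := by
  unfold A
  rw [le_div_iff₀ (denom_pos hm hg)]
  nlinarith [sq_nonneg y]

lemma A_le {m g y : ℝ} (hm : 0 < m) (hm1 : m < 1) (hg : 0 < g) : A m g y ≤ 1 / m := by
  unfold A
  rw [div_le_div_iff₀ (denom_pos hm hg) hm]
  nlinarith [sq_nonneg g, sq_nonneg y]

lemma A_le' {m g y : ℝ} (hm : 0 < m) (hm1 : m < 1) (hg : 1 / 2 ≤ g) :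
    A m g y ≤ 1 + 4 * y ^ 2 := by
  have hg0 : 0 < g := by linarith
  unfold A
  rw [div_le_iff₀ (denom_pos hm hg0)]
  have h1 : 1 ≤ 4 * g ^ 2 := by nlinarith
  nlinarith [sq_nonneg y, mul_nonneg hm.le (sq_nonneg y), mul_nonneg hm.le (mul_nonneg (sq_nonneg y) (sq_nonneg y)), mul_le_mul_of_nonneg_left h1 (sq_nonneg y)]

lemma A_neg (m g y : ℝ) : A m g (-y) = A m g y := by unfold A; ring_nf

/-- second component of the field -/
noncomputable def rhs (m ε F t g y : ℝ) : ℝ :=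
  ε * (3 * (1 - m) * A m g y - 4) * g - F * Real.cos t * A m g y

/-- A solution of the untruncated system on `[-7, 7]`. -/
def Sol (m ε F : ℝ) (g y : ℝ → ℝ) : Prop :=
  ∀ t ∈ Icc (-7 : ℝ) 7, HasDerivWithinAt g (4 * ε * y t) (Icc (-7) 7) t ∧
    HasDerivWithinAt y (rhs m ε F t (g t) (y t)) (Icc (-7) 7) t

lemma abs_coef_le {m ε F t g y : ℝ} (hm : 0 < m) (hm1 : m < 1) (hε : 0 < ε) (hε6 : 6 * ε ≤ 1)
    (hg : g ∈ Icc (1 / 2 : ℝ) (3 / 2)) {F1 : ℝ} (hF : F ∈ Icc 0 F1) :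
    |rhs m ε F t g y| ≤ (F1 + 1) / m := by
  have hg0 : 0 < g := by have := hg.1; linarith
  have hA1 := A_ge_one (y := y) hm hm1 hg0
  have hA2 := A_le (y := y) hm hm1 hg0
  have hcos := Real.abs_cos_le_one t
  have h1 : |3 * (1 - m) * A m g y - 4| ≤ 4 / m := by
    rw [abs_le]
    have h4 : 4 ≤ 4 / m := by rw [le_div_iff₀ hm]; nlinarith
    have h3 : 3 * (1 - m) * A m g y ≤ 3 * (1 / m) := by
      have : 3 * (1 - m) * A m g y ≤ 3 * 1 * (1 / m) := by gcongr; linarith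
      linarith
    have h5 : 3 * (1 / m) = 3 / m := by ring
    have h6 : 3 / m ≤ 4 / m := by gcongr; norm_num
    have h7 : 0 ≤ 3 * (1 - m) * A m g y := by
      have : 0 ≤ 1 - m := by linarith
      positivity
    constructor <;> linarith
  have h2 : |F * Real.cos t * A m g y| ≤ F1 * (1 / m) := by
    rw [abs_mul, abs_mul, abs_of_nonneg hF.1, abs_of_nonneg (by linarith : 0 ≤ A m g y)]
    have : 0 ≤ F1 := hF.1.trans hF.2
    calc F * |Real.cos t| * A m g y ≤ F1 * 1 * (1 / m) := by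
          gcongr
          exact hF.2
      _ = _ := by ring
  have h3 : |ε * (3 * (1 - m) * A m g y - 4) * g| ≤ 1 / m := by
    rw [abs_mul, abs_mul, abs_of_pos hε, abs_of_pos hg0]
    calc ε * |3 * (1 - m) * A m g y - 4| * g ≤ ε * (4 / m) * (3 / 2) := by
          gcongr; exact hg.2
      _ = (6 * ε) * (1 / m) := by ring
      _ ≤ 1 * (1 / m) := by gcongr
      _ = _ := by ring
  unfold rhs
  calc |ε * (3 * (1 - m) * A m g y - 4) * g - F * Real.cos t * A m g y|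
      ≤ |ε * (3 * (1 - m) * A m g y - 4) * g| + |F * Real.cos t * A m g y| := abs_sub _ _
    _ ≤ 1 / m + F1 * (1 / m) := add_le_add h3 h2
    _ = _ := by ring

/-- value of the a priori bound `M` -/
noncomputable def MM (m F1 : ℝ) : ℝ := 7 * ((F1 + 1) / m)

theorem family {m ε F1 : ℝ} (hm : 0 < m) (hm1 : m < 1) (hε : 0 < ε) (hε6 : 6 * ε ≤ 1)
    (hF1 : 0 < F1) (hεM : 28 * ε * MM m F1 ≤ 1 / 2) :
    ∃ g y : ℝ → ℝ → ℝ, (∀ F ∈ Icc 0 F1, g F 0 = 1 ∧ y F 0 = 0 ∧ Sol m ε F (g F) (y F) ∧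
      (∀ t ∈ Icc (-7 : ℝ) 7, g F t ∈ Icc (1 / 2 : ℝ) (3 / 2) ∧ y F t ∈ Icc (-MM m F1) (MM m F1))) ∧
      ContinuousOn (fun F => y F Real.pi) (Icc 0 F1) := by
  have hM : 0 < MM m F1 := by unfold MM; positivity
  obtain ⟨-, α, hα, L', hL'⟩ := fld_flow (ε := ε) hm hM.le hF1.le 7 ⟨F1, hF1.le⟩ (1, 0, 0)
  have hball : ∀ F ∈ Icc 0 F1, ((1, 0, F) : ℝ × ℝ × ℝ) ∈ closedBall ((1, 0, 0) : ℝ × ℝ × ℝ)
      ((⟨F1, hF1.le⟩ : ℝ≥0) : ℝ) := by
    intro F hF
    rw [mem_closedBall, dist_eq_norm]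
    simp only [Prod.mk_sub_mk, sub_self, sub_zero, Prod.norm_def, norm_zero, Real.norm_eq_abs,
      abs_of_nonneg hF.1]
    simpa using ⟨hF1.le, hF.2⟩
  have h77 : ((7 : ℝ≥0) : ℝ) = 7 := by norm_num
  rw [h77] at hα hL'
  refine ⟨fun F t => (α (1, 0, F) t).1, fun F t => (α (1, 0, F) t).2.1, ?_, ?_⟩
  · intro F hF
    obtain ⟨h0, hd⟩ := hα _ (hball F hF)
    have hd1 : ∀ t ∈ Icc (-7 : ℝ) 7, HasDerivWithinAt (fun t => (α (1, 0, F) t).1)
        (fld m ε (MM m F1) F1 t (α (1, 0, F) t)).1 (Icc (-7) 7) t := fun t ht => by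
      exact (hasFDerivAt_fst (𝕜 := ℝ) (E := ℝ) (F := ℝ × ℝ)
        (p := α (1, 0, F) t)).comp_hasDerivWithinAt t (hd t ht)
    have hdr : ∀ t ∈ Icc (-7 : ℝ) 7, HasDerivWithinAt (fun t => (α (1, 0, F) t).2)
        (fld m ε (MM m F1) F1 t (α (1, 0, F) t)).2 (Icc (-7) 7) t := fun t ht => by
      exact (hasFDerivAt_snd (𝕜 := ℝ) (E := ℝ) (F := ℝ × ℝ)
        (p := α (1, 0, F) t)).comp_hasDerivWithinAt t (hd t ht)
    have hd2 : ∀ t ∈ Icc (-7 : ℝ) 7, HasDerivWithinAt (fun t => (α (1, 0, F) t).2.1)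
        (fld m ε (MM m F1) F1 t (α (1, 0, F) t)).2.1 (Icc (-7) 7) t := fun t ht => by
      exact (hasFDerivAt_fst (𝕜 := ℝ) (E := ℝ) (F := ℝ)
        (p := (α (1, 0, F) t).2)).comp_hasDerivWithinAt t (hdr t ht)
    have hd3 : ∀ t ∈ Icc (-7 : ℝ) 7, HasDerivWithinAt (fun t => (α (1, 0, F) t).2.2)
        (fld m ε (MM m F1) F1 t (α (1, 0, F) t)).2.2 (Icc (-7) 7) t := fun t ht => by
      exact (hasFDerivAt_snd (𝕜 := ℝ) (E := ℝ) (F := ℝ)
        (p := (α (1, 0, F) t).2)).comp_hasDerivWithinAt t (hdr t ht)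
    have h00 : (0 : ℝ) ∈ Icc (-7 : ℝ) 7 := by constructor <;> norm_num
    have hconv : Convex ℝ (Icc (-7 : ℝ) 7) := convex_Icc _ _
    -- third component
    have h3 : ∀ t ∈ Icc (-7 : ℝ) 7, (α (1, 0, F) t).2.2 = F := by
      intro t ht
      have := hconv.norm_image_sub_le_of_norm_hasDerivWithin_le (C := 0) hd3
        (fun t _ => by simp [fld, v1, v2]) h00 ht
      rw [h0] at this
      simp only [zero_mul, Real.norm_eq_abs] at this
      have := abs_nonpos_iff.mp this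
      linarith
    have hc3 : ∀ t ∈ Icc (-7 : ℝ) 7, cl 0 F1 (α (1, 0, F) t).2.2 = F := fun t ht => by
      rw [h3 t ht]; exact cl_eq hF
    -- first component
    have hg : ∀ t ∈ Icc (-7 : ℝ) 7, (α (1, 0, F) t).1 ∈ Icc (1 / 2 : ℝ) (3 / 2) := by
      intro t ht
      have := hconv.norm_image_sub_le_of_norm_hasDerivWithin_le (C := 4 * ε * MM m F1) hd1
        (fun t _ => by
          have hc := cl_mem (by linarith : -MM m F1 ≤ MM m F1) (α (1, 0, F) t).2.1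
          have : (fld m ε (MM m F1) F1 t (α (1, 0, F) t)).1
              = 4 * ε * cl (-MM m F1) (MM m F1) (α (1, 0, F) t).2.1 := by
            simp [fld, v1, v2, cc]
          rw [this, Real.norm_eq_abs, abs_mul, abs_of_pos (by positivity : 0 < 4 * ε)]
          gcongr
          exact abs_le.mpr hc) h00 ht
      rw [h0, sub_zero] at this
      simp only [Real.norm_eq_abs] at this
      have ht7 : |t| ≤ 7 := abs_le.mpr ht
      have h28 : 4 * ε * MM m F1 * |t| ≤ 1 / 2 := by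
        calc 4 * ε * MM m F1 * |t| ≤ 4 * ε * MM m F1 * 7 := by gcongr
          _ = 28 * ε * MM m F1 := by ring
          _ ≤ _ := hεM
      have := abs_le.mp (this.trans h28)
      constructor <;> linarith [this.1, this.2]
    have hc1 : ∀ t ∈ Icc (-7 : ℝ) 7, cl (1 / 2) (3 / 2) (α (1, 0, F) t).1 = (α (1, 0, F) t).1 :=
      fun t ht => cl_eq (hg t ht)
    have hf2 : ∀ t ∈ Icc (-7 : ℝ) 7, (fld m ε (MM m F1) F1 t (α (1, 0, F) t)).2.1
        = rhs m ε F t (α (1, 0, F) t).1 (cl (-MM m F1) (MM m F1) (α (1, 0, F) t).2.1) := by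
      intro t ht
      unfold fld v1 v2 cc rhs
      simp only [Prod.smul_mk, smul_eq_mul, Prod.mk_add_mk]
      rw [hc1 t ht, hc3 t ht]
      ring
    -- second component
    have hy : ∀ t ∈ Icc (-7 : ℝ) 7, (α (1, 0, F) t).2.1 ∈ Icc (-MM m F1) (MM m F1) := by
      intro t ht
      have := hconv.norm_image_sub_le_of_norm_hasDerivWithin_le (C := (F1 + 1) / m) hd2
        (fun t ht => by
          rw [hf2 t ht, Real.norm_eq_abs]
          exact abs_coef_le hm hm1 hε hε6 (hg t ht) hF) h00 ht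
      rw [h0, sub_zero, sub_zero] at this
      simp only [Real.norm_eq_abs] at this
      have ht7 : |t| ≤ 7 := abs_le.mpr ht
      have h28 : (F1 + 1) / m * |t| ≤ MM m F1 := by
        calc (F1 + 1) / m * |t| ≤ (F1 + 1) / m * 7 := by gcongr
          _ = MM m F1 := by unfold MM; ring
      exact abs_le.mp (this.trans h28)
    have hc2 : ∀ t ∈ Icc (-7 : ℝ) 7, cl (-MM m F1) (MM m F1) (α (1, 0, F) t).2.1
        = (α (1, 0, F) t).2.1 := fun t ht => cl_eq (hy t ht)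
    refine ⟨by simp [h0], by simp [h0], fun t ht => ⟨?_, ?_⟩, fun t ht => ⟨hg t ht, hy t ht⟩⟩
    · have h := hd1 t ht
      have : (fld m ε (MM m F1) F1 t (α (1, 0, F) t)).1 = 4 * ε * (α (1, 0, F) t).2.1 := by
        simp [fld, v1, v2, cc, hc2 t ht]
      rwa [this] at h
    · have h := hd2 t ht
      rw [hf2 t ht, hc2 t ht] at h
      exact h
  · have hpi : Real.pi ∈ Icc (-7 : ℝ) 7 :=
      ⟨by linarith [Real.pi_pos], by linarith [Real.pi_lt_d2]⟩
    have h1 := (hL' _ hpi).continuousOn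
    have h2 : ContinuousOn (fun F : ℝ => ((1, 0, F) : ℝ × ℝ × ℝ)) (Icc 0 F1) := by fun_prop
    have h3 := h1.comp h2 (fun F hF => hball F hF)
    exact (continuous_fst.comp continuous_snd).comp_continuousOn h3

end Pool.Agent.W802.NU
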