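import Pool.Agent.W802.NUOde2

open Set Filter Topology Metric
open scoped NNReal

namespace Pool.Agent.W802.NU

lemma mvt_ge {Z Z' : ℝ → ℝ} {a b c : ℝ} (hab : a < b)
    (hd : ∀ t ∈ Icc a b, HasDerivAt Z (Z' t) t) (h : ∀ t ∈ Icc a b, c ≤ Z' t) :
    c * (b - a) ≤ Z b - Z a := by
  obtain ⟨x, hx, hxe⟩ := exists_hasDerivAt_eq_slope Z Z' hab
    (fun t ht => (hd t ht).continuousAt.continuousWithinAt) (fun t ht => hd t (Ioo_subset_Icc_self ht))
  have h1 := h x (Ioo_subset_Icc_self hx)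
  rw [hxe, le_div_iff₀ (by linarith)] at h1
  exact h1

lemma mvt_lt {Z Z' : ℝ → ℝ} {a b : ℝ} (hab : a < b)
    (hd : ∀ t ∈ Icc a b, HasDerivAt Z (Z' t) t) (h : ∀ t ∈ Icc a b, Z' t < 0) :
    Z b < Z a := by
  obtain ⟨x, hx, hxe⟩ := exists_hasDerivAt_eq_slope Z Z' hab
    (fun t ht => (hd t ht).continuousAt.continuousWithinAt) (fun t ht => hd t (Ioo_subset_Icc_self ht))
  have h1 := h x (Ioo_subset_Icc_self hx)
  rw [hxe, div_lt_iff₀ (by linarith)] at h1
  linarith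

lemma mvt_abs {Z Z' : ℝ → ℝ} {C : ℝ} (hZ0 : Z 0 = 0)
    (hd : ∀ t ∈ Icc (0 : ℝ) 4, HasDerivAt Z (Z' t) t) (h : ∀ t ∈ Icc (0 : ℝ) 4, |Z' t| ≤ C) :
    ∀ t ∈ Icc (0 : ℝ) 4, |Z t| ≤ C * 4 := by
  intro t ht
  have h0 : (0 : ℝ) ∈ Icc (0 : ℝ) 4 := by constructor <;> norm_num
  have := (convex_Icc (0 : ℝ) 4).norm_image_sub_le_of_norm_hasDerivWithin_le (C := C)
    (fun t ht => (hd t ht).hasDerivWithinAt) (fun t ht => by simpa using h t ht) h0 ht
  rw [hZ0, sub_zero, sub_zero] at this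
  simp only [Real.norm_eq_abs] at this
  have hC : 0 ≤ C := (abs_nonneg _).trans (h 0 h0)
  have ht4 : |t| ≤ 4 := by rw [abs_of_nonneg ht.1]; exact ht.2
  exact this.trans (by gcongr)

lemma Sol.hasDerivAt {m ε F : ℝ} {g y : ℝ → ℝ} (h : Sol m ε F g y) {t : ℝ} (ht : t ∈ Ioo (-7 : ℝ) 7) :
    HasDerivAt g (4 * ε * y t) t ∧ HasDerivAt y (rhs m ε F t (g t) (y t)) t := by
  have hn : Icc (-7 : ℝ) 7 ∈ 𝓝 t := Icc_mem_nhds ht.1 ht.2
  obtain ⟨h1, h2⟩ := h t (Ioo_subset_Icc_self ht)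
  exact ⟨h1.hasDerivAt hn, h2.hasDerivAt hn⟩

lemma sub4 {t : ℝ} (ht : t ∈ Icc (0 : ℝ) 4) : t ∈ Ioo (-7 : ℝ) 7 :=
  ⟨by linarith [ht.1], by linarith [ht.2]⟩

lemma subpi {t : ℝ} (ht : t ∈ Icc (0 : ℝ) Real.pi) : t ∈ Icc (0 : ℝ) 4 :=
  ⟨ht.1, ht.2.trans (by linarith [Real.pi_lt_d2])⟩

/-- endpoint `F = 0` -/
theorem endpoint_zero {m ε : ℝ} (hm : 0 < m) (hm1 : m < 1) (hε : 0 < ε)
    (hεm : 96 * ε ≤ m) {g y : ℝ → ℝ} (hS : Sol m ε 0 g y) (hy0 : y 0 = 0)
    (hg : ∀ t ∈ Icc (-7 : ℝ) 7, g t ∈ Icc (1 / 2 : ℝ) (3 / 2)) : y Real.pi < 0 := by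
  have hd : ∀ t ∈ Icc (0 : ℝ) 4, HasDerivAt y (rhs m ε 0 t (g t) (y t)) t :=
    fun t ht => (hS.hasDerivAt (sub4 ht)).2
  have hb : ∀ t ∈ Icc (0 : ℝ) 4, |rhs m ε 0 t (g t) (y t)| ≤ 6 * ε / m := by
    intro t ht
    have hgt := hg t (Ioo_subset_Icc_self (sub4 ht))
    have hg0 : 0 < g t := by have := hgt.1; linarith
    have hA1 := A_ge_one (y := y t) hm hm1 hg0
    have hA2 := A_le (y := y t) hm hm1 hg0
    have h1 : |3 * (1 - m) * A m (g t) (y t) - 4| ≤ 4 / m := by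
      rw [abs_le]
      have h4 : 4 ≤ 4 / m := by rw [le_div_iff₀ hm]; nlinarith
      have h3 : 3 * (1 - m) * A m (g t) (y t) ≤ 3 * (1 / m) := by
        have : 3 * (1 - m) * A m (g t) (y t) ≤ 3 * 1 * (1 / m) := by gcongr; linarith
        linarith
      have h5 : 3 * (1 / m) = 3 / m := by ring
      have h6 : 3 / m ≤ 4 / m := by gcongr; norm_num
      have h7 : 0 ≤ 3 * (1 - m) * A m (g t) (y t) := by
        have : 0 ≤ 1 - m := by linarith
        positivity
      constructor <;> linarith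
    unfold rhs
    rw [zero_mul, zero_mul, sub_zero, abs_mul, abs_mul, abs_of_pos hε, abs_of_pos hg0]
    calc ε * |3 * (1 - m) * A m (g t) (y t) - 4| * g t ≤ ε * (4 / m) * (3 / 2) := by
          gcongr; exact hgt.2
      _ = 6 * ε / m := by ring
  have hy := mvt_abs hy0 hd hb
  have hy4 : ∀ t ∈ Icc (0 : ℝ) 4, |y t| ≤ 1 / 4 := fun t ht => (hy t ht).trans (by
    rw [div_mul_eq_mul_div, div_le_iff₀ hm]; linarith)
  have := mvt_lt (Z := y) (Z' := fun t => rhs m ε 0 t (g t) (y t)) Real.pi_pos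
    (fun t ht => hd t (subpi ht)) (fun t ht => by
      have ht4 := subpi ht
      have hgt := hg t (Ioo_subset_Icc_self (sub4 ht4))
      have hg0 : 0 < g t := by have := hgt.1; linarith
      have hA1 := A_ge_one (y := y t) hm hm1 hg0
      have hA2 := A_le' (y := y t) hm hm1 hgt.1
      have hy2 : y t ^ 2 ≤ (1 / 4) ^ 2 := by
        rw [← sq_abs]; exact pow_le_pow_left₀ (abs_nonneg _) (hy4 t ht4) 2
      have h3 : A m (g t) (y t) ≤ 5 / 4 := by nlinarith
      have h4 : 3 * (1 - m) * A m (g t) (y t) ≤ 3 * 1 * (5 / 4) := by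
        gcongr; linarith
      unfold rhs
      rw [zero_mul, zero_mul, sub_zero]
      have : 3 * (1 - m) * A m (g t) (y t) - 4 < 0 := by linarith
      have := mul_neg_of_pos_of_neg hε this
      exact mul_neg_of_neg_of_pos this hg0)
  rwa [hy0] at this

/-- the primitive -/
noncomputable def W (m g y : ℝ) : ℝ := m * y + (1 - m) * (g * Real.arctan (y / g))

/-- the source -/
noncomputable def Ups (m g y : ℝ) : ℝ := (1 + 3 * m) * g - 4 * (1 - m) * (y * Real.arctan (y / g))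

lemma hasDerivAt_W {m ε F t : ℝ} (hm : 0 < m) {g y : ℝ → ℝ} (hgt : 0 < g t)
    (hg : HasDerivAt g (4 * ε * y t) t) (hy : HasDerivAt y (rhs m ε F t (g t) (y t)) t) :
    HasDerivAt (fun t => W m (g t) (y t) + F * Real.sin t) (-ε * Ups m (g t) (y t)) t := by
  have h1 : HasDerivAt (fun t => Real.arctan (y t / g t))
      (1 / (1 + (y t / g t) ^ 2) * ((rhs m ε F t (g t) (y t) * g t - y t * (4 * ε * y t)) / g t ^ 2)) t :=
    (hy.div hg hgt.ne').arctan
  have h2 := ((hy.const_mul m).add ((hg.mul h1).const_mul (1 - m))).add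
    ((Real.hasDerivAt_sin t).const_mul F)
  unfold W
  refine h2.congr_deriv ?_
  have hne : g t ^ 2 + m * y t ^ 2 ≠ 0 := (denom_pos hm hgt).ne'
  have hne2 : g t ^ 2 + y t ^ 2 ≠ 0 := by positivity
  have hne3 : (1 + (y t / g t) ^ 2) ≠ 0 := by positivity
  have hg1 : g t ≠ 0 := hgt.ne'
  have e1 : 1 / (1 + (y t / g t) ^ 2) * ((rhs m ε F t (g t) (y t) * g t - y t * (4 * ε * y t)) / g t ^ 2)
      = (rhs m ε F t (g t) (y t) * g t - y t * (4 * ε * y t)) / (g t ^ 2 + y t ^ 2) := by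
    field_simp
  rw [e1]
  unfold rhs Ups A
  generalize Real.arctan (y t / g t) = a
  generalize Real.cos t = c
  generalize g t = G at *
  generalize y t = Y at *
  field_simp
  ring

lemma yarctan_nonneg {g y : ℝ} (hg : 0 < g) : 0 ≤ y * Real.arctan (y / g) := by
  rcases le_total 0 y with h | h
  · exact mul_nonneg h (Real.arctan_nonneg.mpr (by positivity))
  · have : Real.arctan (y / g) ≤ 0 := by
      rw [← Real.arctan_zero]
      exact Real.arctan_mono (div_nonpos_of_nonpos_of_nonneg h hg.le)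
    exact mul_nonneg_of_nonpos_of_nonpos h this

lemma yarctan_ge {g y : ℝ} (hg : 0 < g) (hgy : g ≤ |y|) :
    |y| * (Real.pi / 4) ≤ y * Real.arctan (y / g) := by
  rcases le_total 0 y with h | h
  · rw [abs_of_nonneg h] at hgy ⊢
    gcongr
    rw [← Real.arctan_one]
    exact Real.arctan_mono (by rw [le_div_iff₀ hg]; linarith)
  · rw [abs_of_nonpos h] at hgy ⊢
    have : Real.arctan (y / g) ≤ -(Real.pi / 4) := by
      rw [← Real.arctan_one, ← Real.arctan_neg]
      exact Real.arctan_mono (by rw [div_le_iff₀ hg]; linarith)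
    nlinarith

lemma abs_arctan_le (x : ℝ) : |Real.arctan x| ≤ Real.pi / 2 :=
  abs_le.mpr ⟨(Real.neg_pi_div_two_lt_arctan x).le, (Real.arctan_lt_pi_div_two x).le⟩

lemma half_le_sin {t : ℝ} (h1 : Real.pi / 4 ≤ t) (h2 : t ≤ 3 * Real.pi / 4) : 1 / 2 ≤ Real.sin t := by
  have hpi := Real.pi_pos
  rcases le_total t (Real.pi / 2) with h | h
  · have := Real.mul_le_sin (by linarith : 0 ≤ t) h
    refine le_trans ?_ this
    rw [div_mul_eq_mul_div, div_le_div_iff₀ (by norm_num) hpi]; linarith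
  · have := Real.mul_le_sin (by linarith : 0 ≤ Real.pi - t) (by linarith)
    rw [Real.sin_pi_sub] at this
    refine le_trans ?_ this
    rw [div_mul_eq_mul_div, div_le_div_iff₀ (by norm_num) hpi]; linarith

/-- endpoint `F = 24 / (1 - m)` -/
theorem endpoint_large {m ε M : ℝ} (hm : 0 < m) (hm1 : m < 1) (hε : 0 < ε) (hM : 0 < M)
    (hεM : ε * (6 + 7 * M) * 4 ≤ 1) {g y : ℝ → ℝ} (hS : Sol m ε (24 / (1 - m)) g y) (hy0 : y 0 = 0)
    (hg : ∀ t ∈ Icc (-7 : ℝ) 7, g t ∈ Icc (1 / 2 : ℝ) (3 / 2))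
    (hy : ∀ t ∈ Icc (-7 : ℝ) 7, |y t| ≤ M) : 0 < y Real.pi := by
  have hpi := Real.pi_pos
  have hpi3 := Real.pi_gt_three
  have hpi315 := Real.pi_lt_d2
  have hκ : 0 < 1 - m := by linarith
  set F := 24 / (1 - m) with hF
  set Z : ℝ → ℝ := fun t => W m (g t) (y t) + F * Real.sin t with hZ
  have hg0 : ∀ t ∈ Icc (0 : ℝ) 4, 0 < g t := fun t ht => by
    have := (hg t (Ioo_subset_Icc_self (sub4 ht))).1; linarith
  have hg32 : ∀ t ∈ Icc (0 : ℝ) 4, g t ≤ 3 / 2 := fun t ht =>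
    (hg t (Ioo_subset_Icc_self (sub4 ht))).2
  have hyM : ∀ t ∈ Icc (0 : ℝ) 4, |y t| ≤ M := fun t ht => hy t (Ioo_subset_Icc_self (sub4 ht))
  have hd : ∀ t ∈ Icc (0 : ℝ) 4, HasDerivAt Z (-ε * Ups m (g t) (y t)) t := fun t ht =>
    hasDerivAt_W hm (hg0 t ht) (hS.hasDerivAt (sub4 ht)).1 (hS.hasDerivAt (sub4 ht)).2
  have hUle : ∀ t ∈ Icc (0 : ℝ) 4, Ups m (g t) (y t) ≤ 6 := by
    intro t ht
    have h1 := yarctan_nonneg (y := y t) (hg0 t ht)
    have h2 : (1 + 3 * m) * g t ≤ 4 * (3 / 2) := by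
      have := hg32 t ht; have := hg0 t ht; gcongr; linarith
    have h3 : 0 ≤ 4 * (1 - m) * (y t * Real.arctan (y t / g t)) := by positivity
    unfold Ups; linarith
  have hUabs : ∀ t ∈ Icc (0 : ℝ) 4, |-ε * Ups m (g t) (y t)| ≤ ε * (6 + 7 * M) := by
    intro t ht
    rw [abs_mul, abs_neg, abs_of_pos hε]
    gcongr
    unfold Ups
    have h2 : |(1 + 3 * m) * g t| ≤ 6 := by
      have hgt0 := hg0 t ht
      have := hg32 t ht
      rw [abs_of_pos (by positivity)]
      have : (1 + 3 * m) * g t ≤ 4 * (3 / 2) := by gcongr; linarith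
      linarith
    have h3 : |4 * (1 - m) * (y t * Real.arctan (y t / g t))| ≤ 7 * M := by
      rw [abs_mul, abs_of_pos (by positivity : 0 < 4 * (1 - m)), abs_mul]
      have h4 := abs_arctan_le (y t / g t)
      calc 4 * (1 - m) * (|y t| * |Real.arctan (y t / g t)|) ≤ 4 * 1 * (M * (Real.pi / 2)) := by
            have := hyM t ht
            gcongr
            linarith
        _ ≤ 7 * M := by nlinarith
    calc |(1 + 3 * m) * g t - 4 * (1 - m) * (y t * Real.arctan (y t / g t))|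
        ≤ |(1 + 3 * m) * g t| + |4 * (1 - m) * (y t * Real.arctan (y t / g t))| := abs_sub _ _
      _ ≤ 6 + 7 * M := add_le_add h2 h3
  have hZ0 : Z 0 = 0 := by simp [hZ, W, hy0]
  have hZ1 : ∀ t ∈ Icc (0 : ℝ) 4, |Z t| ≤ 1 := fun t ht =>
    (mvt_abs hZ0 hd hUabs t ht).trans hεM
  have hκ1 : 1 ≤ 1 / (1 - m) := by rw [le_div_iff₀ hκ]; linarith
  have hFe : F = 24 * (1 / (1 - m)) := by rw [hF]; ring
  -- the middle part
  have hmid : ∀ t ∈ Icc (Real.pi / 4) (3 * Real.pi / 4), Ups m (g t) (y t) ≤ 6 - 8 * Real.pi := by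
    intro t ht
    have ht4 : t ∈ Icc (0 : ℝ) 4 := ⟨by linarith [ht.1], by linarith [ht.2]⟩
    have hs := half_le_sin ht.1 ht.2
    have h1 := (abs_le.mp (hZ1 t ht4)).2
    have h2 : Z t = W m (g t) (y t) + F * Real.sin t := rfl
    have h3 : F * (1 / 2) ≤ F * Real.sin t := by
      have : 0 ≤ F := by rw [hFe]; positivity
      gcongr
    have h4 : W m (g t) (y t) ≤ 1 - 12 * (1 / (1 - m)) := by linarith
    have hg0t := hg0 t ht4
    have h5 : -(|y t| + 2.4) ≤ W m (g t) (y t) := by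
      have : |W m (g t) (y t)| ≤ |y t| + 2.4 := by
        unfold W
        calc |m * y t + (1 - m) * (g t * Real.arctan (y t / g t))|
            ≤ |m * y t| + |(1 - m) * (g t * Real.arctan (y t / g t))| := abs_add_le _ _
          _ ≤ 1 * |y t| + 1 * ((3 / 2) * (Real.pi / 2)) := by
              rw [abs_mul, abs_mul, abs_mul, abs_of_pos hm, abs_of_pos hκ, abs_of_pos hg0t]
              have := abs_arctan_le (y t / g t)
              have := hg32 t ht4
              gcongr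
              linarith
          _ ≤ |y t| + 2.4 := by linarith
      exact (abs_le.mp this).1
    have h6 : 8 * (1 / (1 - m)) ≤ |y t| := by linarith
    have h7 : g t ≤ |y t| := by have := hg32 t ht4; linarith
    have h8 := yarctan_ge hg0t h7
    have h9 : 8 * (1 / (1 - m)) * (Real.pi / 4) ≤ y t * Real.arctan (y t / g t) :=
      le_trans (by gcongr) h8
    have h10 : 4 * (1 - m) * (8 * (1 / (1 - m)) * (Real.pi / 4))
        ≤ 4 * (1 - m) * (y t * Real.arctan (y t / g t)) := by gcongr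
    have h11 : 4 * (1 - m) * (8 * (1 / (1 - m)) * (Real.pi / 4)) = 8 * Real.pi := by
      field_simp
    have h12 : (1 + 3 * m) * g t ≤ 4 * (3 / 2) := by
      have := hg32 t ht4; gcongr; linarith
    unfold Ups
    linarith
  have e1 := mvt_ge (Z := Z) (Z' := fun t => -ε * Ups m (g t) (y t)) (a := 0) (b := Real.pi / 4)
    (c := -(6 * ε)) (by linarith) (fun t ht => hd t ⟨ht.1, by linarith [ht.2]⟩) (fun t ht => by
      have := hUle t ⟨ht.1, by linarith [ht.2]⟩
      nlinarith)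
  have e2 := mvt_ge (Z := Z) (Z' := fun t => -ε * Ups m (g t) (y t)) (a := Real.pi / 4)
    (b := 3 * Real.pi / 4)
    (c := ε * (8 * Real.pi - 6)) (by linarith)
    (fun t ht => hd t ⟨by linarith [ht.1], by linarith [ht.2]⟩) (fun t ht => by
      have := hmid t ht
      nlinarith)
  have e3 := mvt_ge (Z := Z) (Z' := fun t => -ε * Ups m (g t) (y t)) (a := 3 * Real.pi / 4)
    (b := Real.pi)
    (c := -(6 * ε)) (by linarith) (fun t ht => hd t ⟨by linarith [ht.1], by linarith [ht.2]⟩)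
    (fun t ht => by
      have := hUle t ⟨by linarith [ht.1], by linarith [ht.2]⟩
      nlinarith)
  have hZpi : 0 < Z Real.pi := by
    have : Z Real.pi ≥ ε * (8 * Real.pi - 12) * (Real.pi / 2) := by
      have e : ε * (8 * Real.pi - 12) * (Real.pi / 2) =
        -(6 * ε) * (Real.pi / 4 - 0) + ε * (8 * Real.pi - 6) * (3 * Real.pi / 4 - Real.pi / 4)
          + -(6 * ε) * (Real.pi - 3 * Real.pi / 4) := by ring
      rw [e]; linarith
    have h2 : 0 < ε * (8 * Real.pi - 12) * (Real.pi / 2) := by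
      have : 0 < 8 * Real.pi - 12 := by linarith
      positivity
    linarith
  by_contra hcon
  rw [not_lt] at hcon
  have hgpi := hg0 Real.pi ⟨hpi.le, by linarith⟩
  have : W m (g Real.pi) (y Real.pi) ≤ 0 := by
    unfold W
    have h1 : Real.arctan (y Real.pi / g Real.pi) ≤ 0 := by
      rw [← Real.arctan_zero]
      exact Real.arctan_mono (div_nonpos_of_nonpos_of_nonneg hcon hgpi.le)
    have h2 : g Real.pi * Real.arctan (y Real.pi / g Real.pi) ≤ 0 :=
      mul_nonpos_of_nonneg_of_nonpos hgpi.le h1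
    have h3 := mul_nonpos_of_nonneg_of_nonpos hκ.le h2
    have h4 := mul_nonpos_of_nonneg_of_nonpos hm.le hcon
    linarith
  have h5 : Z Real.pi = W m (g Real.pi) (y Real.pi) + F * Real.sin Real.pi := rfl
  rw [Real.sin_pi, mul_zero, add_zero] at h5
  linarith

end Pool.Agent.W802.NU
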