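import Pool.Agent.W802.NUOde3

open Set Filter Topology Metric
open scoped NNReal

namespace Pool.Agent.W802.NU

theorem exists_root {m : ℝ} (hm : 0 < m) (hm1 : m < 1) :
    ∃ M F1 : ℝ, 0 < M ∧ 0 < F1 ∧ ∃ ε₀ > 0, ∀ ε, 0 < ε → ε ≤ ε₀ → ∃ (F : ℝ) (g y : ℝ → ℝ),
      F ∈ Icc 0 F1 ∧ g 0 = 1 ∧ y 0 = 0 ∧ y Real.pi = 0 ∧ Sol m ε F g y ∧
      (∀ t ∈ Icc (-7 : ℝ) 7, g t ∈ Icc (1 / 2 : ℝ) (3 / 2) ∧ y t ∈ Icc (-M) M) := by
  have hκ : 0 < 1 - m := by linarith
  have hF1 : 0 < 24 / (1 - m) := by positivity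
  set F1 := 24 / (1 - m) with hF1def
  have hF24 : 24 ≤ F1 := by rw [hF1def, le_div_iff₀ hκ]; linarith
  have hM : 0 < MM m F1 := by unfold MM; positivity
  have hMm : 175 / m ≤ MM m F1 := by
    unfold MM
    rw [← mul_div_assoc]
    gcongr
    linarith
  refine ⟨MM m F1, F1, hM, hF1, 1 / (100 * (1 + MM m F1)), by positivity, ?_⟩
  intro ε hε hε0
  rw [le_div_iff₀ (by positivity)] at hε0
  have hεM : ε * MM m F1 ≤ 1 / 100 := by nlinarith
  have hε1 : ε ≤ 1 / 100 := by nlinarith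
  have hεm : 96 * ε ≤ m := by
    have h1 : ε * (175 / m) ≤ 1 / 100 := le_trans (by gcongr) hεM
    rw [← mul_div_assoc, div_le_iff₀ hm] at h1
    linarith
  obtain ⟨g, y, hfam, hcont⟩ := family (ε := ε) hm hm1 hε (by linarith) hF1 (by linarith)
  have h0 : (0 : ℝ) ∈ Icc 0 F1 := ⟨le_rfl, hF1.le⟩
  have h1 : F1 ∈ Icc 0 F1 := ⟨hF1.le, le_rfl⟩
  have e0 : y 0 Real.pi < 0 := by
    obtain ⟨-, hy0, hS, hb⟩ := hfam 0 h0
    exact endpoint_zero hm hm1 hε hεm hS hy0 (fun t ht => (hb t ht).1)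
  have e1 : 0 < y F1 Real.pi := by
    obtain ⟨-, hy0, hS, hb⟩ := hfam F1 h1
    exact endpoint_large hm hm1 hε hM (by linarith) hS hy0 (fun t ht => (hb t ht).1)
      (fun t ht => abs_le.mpr (hb t ht).2)
  obtain ⟨F, hF, hFy⟩ := intermediate_value_Icc hF1.le hcont (⟨e0.le, e1.le⟩ : (0 : ℝ) ∈ Icc _ _)
  obtain ⟨hg0, hy0, hS, hb⟩ := hfam F hF
  exact ⟨F, g F, y F, hF, hg0, hy0, hFy, hS, hb⟩

lemma reflect {m ε F M F1 c : ℝ} (hm : 0 < m) {g y : ℝ → ℝ}
    (hF : F ∈ Icc 0 F1) (hS : Sol m ε F g y)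
    (hb : ∀ t ∈ Icc (-7 : ℝ) 7, g t ∈ Icc (1 / 2 : ℝ) (3 / 2) ∧ y t ∈ Icc (-M) M)
    (hc0 : 0 ≤ c) (hc7 : c < 7) (hcos : ∀ t, Real.cos (2 * c - t) = Real.cos t) (hyc : y c = 0) :
    ∀ t ∈ Icc (2 * c - 7) 7, g (2 * c - t) = g t ∧ y (2 * c - t) = - y t := by
  obtain ⟨K1, hK1⟩ := exists_lip_box (M := M) (F := F1) (v := v1 m ε)
    (fun x hx => contDiffAt_v1 hm hx)
  obtain ⟨K2, hK2⟩ := exists_lip_box (M := M) (F := F1) (v := v2 m)
    (fun x hx => contDiffAt_v2 hm hx)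
  have hlip : ∀ t, LipschitzOnWith (K1 + K2) (fun x => v1 m ε x + Real.cos t • v2 m x)
      (box M F1) := by
    intro t
    refine LipschitzOnWith.of_dist_le_mul fun x hx y hy => ?_
    have h1 := hK1.dist_le_mul _ hx _ hy
    have h2 := hK2.dist_le_mul _ hx _ hy
    have h4 : |Real.cos t| ≤ 1 := Real.abs_cos_le_one t
    calc dist (v1 m ε x + Real.cos t • v2 m x) (v1 m ε y + Real.cos t • v2 m y)
        ≤ dist (v1 m ε x) (v1 m ε y) + dist (Real.cos t • v2 m x) (Real.cos t • v2 m y) :=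
          dist_add_add_le _ _ _ _
      _ ≤ K1 * dist x y + K2 * dist x y := by
          gcongr
          rw [dist_smul₀, Real.norm_eq_abs]
          calc |Real.cos t| * dist (v2 m x) (v2 m y)
              ≤ 1 * dist (v2 m x) (v2 m y) := by gcongr
            _ ≤ K2 * dist x y := by rw [one_mul]; exact h2
      _ = _ := by push_cast; ring
  have hin : ∀ t ∈ Icc (2 * c - 7) 7, t ∈ Icc (-7 : ℝ) 7 ∧ 2 * c - t ∈ Icc (-7 : ℝ) 7 :=
    fun t ht => ⟨⟨by linarith [ht.1], ht.2⟩, ⟨by linarith [ht.2], by linarith [ht.1]⟩⟩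
  have hin' : ∀ t ∈ Ioo (2 * c - 7) 7, t ∈ Ioo (-7 : ℝ) 7 ∧ 2 * c - t ∈ Ioo (-7 : ℝ) 7 :=
    fun t ht => ⟨⟨by linarith [ht.1], ht.2⟩, ⟨by linarith [ht.2], by linarith [ht.1]⟩⟩
  have hgc : ContinuousOn g (Icc (-7) 7) := fun t ht => (hS t ht).1.continuousWithinAt
  have hycont : ContinuousOn y (Icc (-7) 7) := fun t ht => (hS t ht).2.continuousWithinAt
  have hmaps1 : MapsTo (fun t : ℝ => t) (Icc (2 * c - 7) 7) (Icc (-7 : ℝ) 7) :=
    fun t ht => (hin t ht).1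
  have hmaps2 : MapsTo (fun t : ℝ => 2 * c - t) (Icc (2 * c - 7) 7) (Icc (-7 : ℝ) 7) :=
    fun t ht => (hin t ht).2
  have hcs : ContinuousOn (fun t : ℝ => 2 * c - t) (Icc (2 * c - 7) 7) := by fun_prop
  have key : EqOn (fun t => ((g (2 * c - t), - y (2 * c - t), F) : ℝ × ℝ × ℝ))
      (fun t => (g t, y t, F)) (Icc (2 * c - 7) 7) := by
    refine ODE_solution_unique_of_mem_Icc (v := fun t x => v1 m ε x + Real.cos t • v2 m x)
      (s := fun _ => box M F1) (K := K1 + K2) (t₀ := c) (fun t _ => hlip t)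
      ⟨by linarith, hc7⟩ ?_ ?_ ?_ ?_ ?_ ?_ ?_
    · exact (hgc.comp hcs hmaps2).prodMk ((hycont.comp hcs hmaps2).neg.prodMk continuousOn_const)
    · intro t ht
      obtain ⟨h1, h2⟩ := hS.hasDerivAt (hin' t ht).2
      have hsub : HasDerivAt (fun t : ℝ => 2 * c - t) (-1) t := by
        simpa using (hasDerivAt_id t).const_sub (2 * c)
      have h1' := h1.comp t hsub
      have h2' := (h2.comp t hsub).neg
      have h3' : HasDerivAt (fun _ : ℝ => F) 0 t := hasDerivAt_const t F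
      refine (h1'.prodMk (h2'.prodMk h3')).congr_deriv ?_
      simp only [v1, v2, rhs, A_neg, hcos, Prod.smul_mk, smul_eq_mul, Prod.mk_add_mk, Prod.mk.injEq]
      refine ⟨by ring, by ring, by ring⟩
    · intro t ht
      obtain ⟨h1, h2⟩ := hb _ (hin t (Ioo_subset_Icc_self ht)).2
      exact ⟨h1, ⟨by linarith [h2.2], by linarith [h2.1]⟩, hF⟩
    · exact (hgc.comp continuousOn_id hmaps1).prodMk
        ((hycont.comp continuousOn_id hmaps1).prodMk continuousOn_const)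
    · intro t ht
      obtain ⟨h1, h2⟩ := hS.hasDerivAt (hin' t ht).1
      have h3' : HasDerivAt (fun _ : ℝ => F) 0 t := hasDerivAt_const t F
      refine (h1.prodMk (h2.prodMk h3')).congr_deriv ?_
      simp only [v1, v2, rhs, Prod.smul_mk, smul_eq_mul, Prod.mk_add_mk, Prod.mk.injEq]
      refine ⟨by ring, by ring, by ring⟩
    · intro t ht
      obtain ⟨h1, h2⟩ := hb _ (hin t (Ioo_subset_Icc_self ht)).1
      exact ⟨h1, h2, hF⟩
    · have : 2 * c - c = c := by ring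
      simp only [this, hyc, neg_zero]
  intro t ht
  have := key ht
  simp only [Prod.mk.injEq, and_true] at this
  exact ⟨this.1, by linarith [this.2]⟩

theorem exists_profile {m : ℝ} (hm : 0 < m) (hm1 : m < 1) :
    ∃ N : ℕ, 0 < N ∧ ∃ (F : ℝ) (g y : ℝ → ℝ),
      (∀ t, HasDerivAt g (4 * (1 / (N : ℝ)) * y t) t) ∧
      (∀ t, HasDerivAt y (rhs m (1 / (N : ℝ)) F t (g t) (y t)) t) ∧
      (∀ t, g t ∈ Icc (1 / 2 : ℝ) (3 / 2)) ∧ (∀ t, g (t + 2 * Real.pi) = g t) := by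
  obtain ⟨M, F1, hM, hF1, ε₀, hε₀, hroot⟩ := exists_root hm hm1
  obtain ⟨n, hn⟩ := exists_nat_one_div_lt hε₀
  have hpi := Real.pi_pos
  have hpi3 := Real.pi_gt_three
  have hpi315 := Real.pi_lt_d2
  set ε : ℝ := 1 / ((n + 1 : ℕ) : ℝ) with hεdef
  have hε : 0 < ε := by positivity
  have hεle : ε ≤ ε₀ := by
    have : ε = 1 / ((n : ℝ) + 1) := by rw [hεdef]; push_cast; ring
    rw [this]; exact hn.le
  obtain ⟨F, g, y, hF, hg0, hy0, hypi, hS, hb⟩ := hroot ε hε hεle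
  have r0 := reflect (c := 0) hm hF hS hb le_rfl (by norm_num) (fun t => by simp) hy0
  have rpi := reflect (c := Real.pi) hm hF hS hb hpi.le (by linarith)
    (fun t => by rw [Real.cos_two_pi_sub]) hypi
  have hper : ∀ s, s ∈ Icc (-7 : ℝ) 7 → s + 2 * Real.pi ∈ Icc (-7 : ℝ) 7 →
      g (s + 2 * Real.pi) = g s ∧ y (s + 2 * Real.pi) = y s := by
    intro s hs hs2
    have h1 := rpi (-s) ⟨by linarith [hs2.2], by linarith [hs.1]⟩
    have h2 := r0 (-s) ⟨by linarith [hs2.2], by linarith [hs.1]⟩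
    have e1 : 2 * Real.pi - -s = s + 2 * Real.pi := by ring
    have e2 : (2 : ℝ) * 0 - -s = s := by ring
    rw [e1] at h1; rw [e2] at h2
    exact ⟨by rw [h1.1, ← h2.1], by rw [h1.2, h2.2]⟩
  set r : ℝ → ℝ := fun t => toIcoMod Real.two_pi_pos (-Real.pi) t with hr
  have hrmem : ∀ t, r t ∈ Ico (-Real.pi) Real.pi := by
    intro t
    have := toIcoMod_mem_Ico Real.two_pi_pos (-Real.pi) t
    refine ⟨this.1, ?_⟩
    have h2 := this.2
    simp only [hr]
    linarith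
  have hrdiv : ∀ t, r t = t - (toIcoDiv Real.two_pi_pos (-Real.pi) t : ℝ) * (2 * Real.pi) := by
    intro t
    simp only [hr, toIcoMod, zsmul_eq_mul]
  have hr7 : ∀ t, r t ∈ Icc (-7 : ℝ) 7 := fun t => ⟨by linarith [(hrmem t).1], by linarith [(hrmem t).2]⟩
  have hloc : ∀ t₀ t : ℝ, |t - t₀| < 1 / 2 →
      g (r t) = g (t - (toIcoDiv Real.two_pi_pos (-Real.pi) t₀ : ℝ) * (2 * Real.pi)) ∧
      y (r t) = y (t - (toIcoDiv Real.two_pi_pos (-Real.pi) t₀ : ℝ) * (2 * Real.pi)) := by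
    intro t₀ t htt
    obtain ⟨ht1, ht2⟩ := abs_lt.mp htt
    set k := toIcoDiv Real.two_pi_pos (-Real.pi) t₀ with hk
    set k' := toIcoDiv Real.two_pi_pos (-Real.pi) t with hk'
    have h0 := hrdiv t₀
    have h1 := hrdiv t
    rw [← hk] at h0
    rw [← hk'] at h1
    have m0 := hrmem t₀
    have m1 := hrmem t
    have hs7 : t - (k : ℝ) * (2 * Real.pi) ∈ Icc (-7 : ℝ) 7 :=
      ⟨by linarith [m0.1], by linarith [m0.2]⟩
    have hd : ((k' - k : ℤ) : ℝ) * (2 * Real.pi) = (t - (k : ℝ) * (2 * Real.pi)) - r t := by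
      rw [h1]; push_cast; ring
    have hlt : ((k' - k : ℤ) : ℝ) < 2 := by
      by_contra hcon
      rw [not_lt] at hcon
      have : 2 * (2 * Real.pi) ≤ ((k' - k : ℤ) : ℝ) * (2 * Real.pi) := by gcongr
      rw [hd] at this
      linarith [m0.2, m1.1]
    have hgt : (-2 : ℝ) < ((k' - k : ℤ) : ℝ) := by
      by_contra hcon
      rw [not_lt] at hcon
      have : ((k' - k : ℤ) : ℝ) * (2 * Real.pi) ≤ (-2) * (2 * Real.pi) := by gcongr
      rw [hd] at this
      linarith [m0.1, m1.2]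
    have hlt' : k' - k < 2 := by exact_mod_cast hlt
    have hgt' : -2 < k' - k := by exact_mod_cast hgt
    have hcases : k' - k = -1 ∨ k' - k = 0 ∨ k' - k = 1 := by omega
    rcases hcases with h | h | h
    · rw [h] at hd
      have e : r t = (t - (k : ℝ) * (2 * Real.pi)) + 2 * Real.pi := by
        push_cast at hd; linarith
      have := hper _ hs7 (by rw [← e]; exact hr7 t)
      rw [e]; exact this
    · rw [h] at hd
      have e : r t = (t - (k : ℝ) * (2 * Real.pi)) := by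
        push_cast at hd; linarith
      rw [e]; exact ⟨rfl, rfl⟩
    · rw [h] at hd
      have e : (t - (k : ℝ) * (2 * Real.pi)) = r t + 2 * Real.pi := by
        push_cast at hd; linarith
      have := hper _ (hr7 t) (by rw [← e]; exact hs7)
      rw [e]; exact ⟨this.1.symm, this.2.symm⟩
  refine ⟨n + 1, Nat.succ_pos n, F, fun t => g (r t), fun t => y (r t), ?_, ?_, ?_, ?_⟩
  · intro t₀
    have hmem : r t₀ ∈ Ioo (-7 : ℝ) 7 := ⟨by linarith [(hrmem t₀).1], by linarith [(hrmem t₀).2]⟩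
    have h1 := (hS.hasDerivAt hmem).1
    rw [hrdiv t₀] at h1
    have h2 := HasDerivAt.comp_sub_const t₀ _ h1
    have h3 : (fun t => g (r t)) =ᶠ[𝓝 t₀] fun t =>
        g (t - (toIcoDiv Real.two_pi_pos (-Real.pi) t₀ : ℝ) * (2 * Real.pi)) := by
      filter_upwards [Metric.ball_mem_nhds t₀ (by norm_num : (0 : ℝ) < 1 / 2)] with t ht
      rw [Metric.mem_ball, Real.dist_eq] at ht
      exact (hloc t₀ t ht).1
    have h4 := h2.congr_of_eventuallyEq h3
    rw [← hrdiv t₀] at h4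
    exact h4
  · intro t₀
    have hmem : r t₀ ∈ Ioo (-7 : ℝ) 7 := ⟨by linarith [(hrmem t₀).1], by linarith [(hrmem t₀).2]⟩
    have h1 := (hS.hasDerivAt hmem).2
    have hcosr : Real.cos (r t₀) = Real.cos t₀ := by
      rw [hrdiv t₀, Real.cos_sub_int_mul_two_pi]
    have e : rhs m ε F (r t₀) (g (r t₀)) (y (r t₀)) = rhs m ε F t₀ (g (r t₀)) (y (r t₀)) := by
      unfold rhs; rw [hcosr]
    rw [e] at h1
    have h1' : HasDerivAt y (rhs m ε F t₀ (g (r t₀)) (y (r t₀)))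
      (t₀ - (toIcoDiv Real.two_pi_pos (-Real.pi) t₀ : ℝ) * (2 * Real.pi)) := by
      rw [← hrdiv t₀]; exact h1
    have h2 := HasDerivAt.comp_sub_const t₀ _ h1'
    have h3 : (fun t => y (r t)) =ᶠ[𝓝 t₀] fun t =>
        y (t - (toIcoDiv Real.two_pi_pos (-Real.pi) t₀ : ℝ) * (2 * Real.pi)) := by
      filter_upwards [Metric.ball_mem_nhds t₀ (by norm_num : (0 : ℝ) < 1 / 2)] with t ht
      rw [Metric.mem_ball, Real.dist_eq] at ht
      exact (hloc t₀ t ht).2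
    exact h2.congr_of_eventuallyEq h3
  · intro t
    exact (hb _ (hr7 t)).1
  · intro t
    have : r (t + 2 * Real.pi) = r t := by
      simp only [hr]
      exact toIcoMod_add_right Real.two_pi_pos (-Real.pi) t
    simp only [this]

end Pool.Agent.W802.NU
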